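import Pool.Agent.MP_b4c6b8_lc.H22.HN1

/-! The norm theorem of Hasse for a quadratic extension in which no real place ramifies. -/

namespace Pool.Agent.MP_b4c6b8_lc.H22

open NumberField IsDedekindDomain WithZero Pool.Agent.MP_db5b97_nt Pool.Agent.MP_db5b97_nt.H85

namespace HN

lemma small {γ : WithZero (Multiplicative ℤ)} (h : γ ≠ 0) : ∃ n : ℕ, exp (-(n : ℤ)) ≤ γ :=
  ⟨(log γ).natAbs, by
    conv_rhs => rw [← exp_log h]
    rw [exp_le_exp]
    omega⟩

lemma sq_close {E Γ : Type} [Field E] [LinearOrderedCommGroupWithZero Γ] (v : Valuation E Γ)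
    (a x : E) {δ : Γ} (h : δ ≠ 0) :
    ∃ γ, γ ≠ 0 ∧ ∀ y, v (y - x) ≤ γ → v (a * (y ^ 2 - x ^ 2)) ≤ δ := by
  have p : ∀ z, 0 < max 1 (v z) := fun z => lt_max_of_lt_left one_pos
  refine ⟨min 1 (δ / (max 1 (v a) * max 1 (v x))), (lt_min one_pos (div_pos (zero_lt_iff.2 h)
    (mul_pos (p a) (p x)))).ne', fun y hy => ?_⟩
  rw [show a * (y ^ 2 - x ^ 2) = (y - x) * (a * (y - x + x + x)) by ring, map_mul, map_mul,
    ← div_mul_cancel₀ δ (mul_pos (p a) (p x)).ne']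
  exact mul_le_mul' (hy.trans (min_le_right _ _)) (mul_le_mul' (le_max_right _ _)
    (v.map_add_le (v.map_add_le ((hy.trans (min_le_left _ _)).trans (le_max_left _ _))
      (le_max_right _ _)) (le_max_right _ _)))

variable {E : Type} [Field E] [NumberField E]

lemma approx {l : ℕ} (hl : l ≠ 0) (x : Pl E l → E) (γ : Pl E l → WithZero (Multiplicative ℤ))
    (h : ∀ w, γ w ≠ 0) : ∃ y, ∀ w : Pl E l, w.1.valuation E (y - x w) ≤ γ w := by
  have := Pl_finite (F := E) hl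
  have := Fintype.ofFinite (Pl E l)
  obtain ⟨d, hd⟩ := IsLocalization.exist_integer_multiples_of_finite (nonZeroDivisors (𝓞 E)) x
  choose z hz using hd
  have d0 : ((d : 𝓞 E) : E) ≠ 0 := by simp
  have v0 : ∀ w : Pl E l, w.1.valuation E ((d : 𝓞 E) : E) ≠ 0 := fun w => by simp
  choose e he using fun w => small (mul_ne_zero (h w) (v0 w))
  obtain ⟨y, hy⟩ := exists_forall_sub_mem_ideal (s := Finset.univ)
    (fun v : Pl E l => v.1.asIdeal) e (fun v _ => v.1.prime)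
    (fun v _ v' _ h e => h (Subtype.ext (HeightOneSpectrum.ext e))) (fun v => z v.1)
  refine ⟨y / (d : 𝓞 E), fun w => ?_⟩
  have h1 := (w.1.intValuation_le_pow_iff_mem _ _).2 (hy w (Finset.mem_univ w))
  have e1 : (y : E) / (d : 𝓞 E) - x w = ((y - z w : 𝓞 E) : E) / (d : 𝓞 E) := by
    have : ((z w : 𝓞 E) : E) = (d : 𝓞 E) * x w := (hz w).trans (Algebra.smul_def _ _)
    rw [eq_div_iff d0, sub_mul, div_mul_cancel₀ _ d0, mul_comm, ← this]
    rfl
  rw [e1, map_div₀, div_le_iff₀ (zero_lt_iff.2 (v0 w)), val_coe]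
  exact h1.trans (he w)

lemma glob {l : ℕ} (hl : l ≠ 0) {a c : E} (H : ∀ (w : HeightOneSpectrum (𝓞 E)) (n : ℕ),
    ∃ s t : E, w.valuation E (s ^ 2 - a * t ^ 2 - c) ≤ exp (-(n : ℤ)))
    (δ : Pl E l → WithZero (Multiplicative ℤ)) (h : ∀ w, δ w ≠ 0) :
    ∃ s t : E, ∀ w : Pl E l, w.1.valuation E (s ^ 2 - a * t ^ 2 - c) ≤ δ w := by
  choose n hn using fun w => small (h w)
  choose s t hs using fun w : Pl E l => H w.1 (n w)
  choose γ g0 g1 using fun w : Pl E l => sq_close (w.1.valuation E) 1 (s w) (h w)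
  choose γ' g2 g3 using fun w : Pl E l => sq_close (w.1.valuation E) a (t w) (h w)
  obtain ⟨x, hx⟩ := approx hl s γ g0
  obtain ⟨y, hy⟩ := approx hl t γ' g2
  refine ⟨x, y, fun w => ?_⟩
  rw [show x ^ 2 - a * y ^ 2 - c = s w ^ 2 - a * t w ^ 2 - c + 1 * (x ^ 2 - s w ^ 2)
    - a * (y ^ 2 - t w ^ 2) by ring]
  exact Valuation.map_sub_le _ (Valuation.map_add_le _ ((hs w).trans (hn w)) (g1 w x (hx w)))
    (g3 w y (hy w))

lemma exists_l {x : 𝓞 E} (hx : x ≠ 0) :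
    ∃ m : ℕ, 0 < m ∧ ∀ l, m ∣ l → ∀ w : Pr E l, x ∉ w.1.asIdeal := by
  refine ⟨Ideal.absNorm (Ideal.span {x}), Nat.pos_of_ne_zero (by
    rwa [Ne, Ideal.absNorm_eq_zero_iff, Ideal.span_singleton_eq_bot]), ?_⟩
  exact fun l hl w h => w.2 (Ideal.mem_of_dvd _ (Nat.cast_dvd_cast hl)
    ((Ideal.span_singleton_le_iff_mem _).2 h (Ideal.absNorm_mem _)))

lemma exists_pl {l : ℕ} (hl : 2 ≤ l) : Nonempty (Pl E l) := by
  obtain ⟨P, p1, p2⟩ := Ideal.exists_le_maximal (Ideal.span {(l : 𝓞 E)}) (by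
    rw [Ne, ← Ideal.absNorm_eq_one_iff, Ideal.absNorm_span_natCast, Nat.pow_eq_one]
    have := Module.finrank_pos (R := ℤ) (M := 𝓞 E)
    omega)
  exact ⟨⟨⟨P, p1.isPrime, Ring.ne_bot_of_isMaximal_of_not_isField p1
    (RingOfIntegers.not_isField E)⟩, p2 (Ideal.mem_span_singleton_self _)⟩⟩

theorem main {F : Type} [Field F] [NumberField F] [Algebra E F] {a c : E} {θ : F}
    (h2 : Module.finrank E F = 2) (hθ : θ ^ 2 = algebraMap E F a)
    (sp : ∀ x : F, ∃ s t : E, x = algebraMap E F s + algebraMap E F t * θ) (a0 : a ≠ 0)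
    (c0 : c ≠ 0) (pos : ∀ φ : E →+* ℝ, 0 < φ a) (H : ∀ (w : HeightOneSpectrum (𝓞 E)) (n : ℕ),
      ∃ s t : E, w.valuation E (s ^ 2 - a * t ^ 2 - c) ≤ exp (-(n : ℤ))) :
    ∃ s t : E, s ^ 2 - a * t ^ 2 = c := by
  have : Algebra.IsQuadraticExtension E F := { finrank_eq_two' := h2 }
  have hG : Nat.card (F ≃ₐ[E] F) = 2 := (IsGalois.card_aut_eq_finrank E F).trans h2
  obtain ⟨σ, hσ, -⟩ := (Nat.card_eq_two_iff' (1 : F ≃ₐ[E] F)).1 hG
  have key : ∀ s : F ≃ₐ[E] F, s ≠ 1 → s θ = -θ := fun s hs => by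
    refine (sq_eq_sq_iff_eq_or_eq_neg.1 (by rw [← map_pow, hθ, s.commutes])).resolve_left
      fun e => hs (AlgEquiv.ext fun x => ?_)
    obtain ⟨u, v, rfl⟩ := sp x
    simp [e]
  have : IsUnramifiedAtInfinitePlaces E F := ⟨fun w => by
    rw [← w.mk_embedding, InfinitePlace.isUnramified_mk_iff_forall_isConj]
    intro s hs
    by_contra h1
    have e1 := hs.eq θ
    have e2 := hs.isReal_comp.coe_embedding_apply a
    have e3 := Complex.mul_conj (w.embedding θ)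
    rw [key s h1, map_neg, neg_eq_iff_eq_neg] at e1
    rw [RingHom.comp_apply, ← hθ, map_pow, sq] at e2
    have e4 : ((hs.isReal_comp.embedding a + Complex.normSq (w.embedding θ) : ℝ) : ℂ) = 0 := by
      rw [Complex.ofReal_add, e2, ← e3, ← mul_add]
      exact mul_eq_zero_of_right _ (add_eq_zero_iff_eq_neg.2 e1)
    have := Complex.normSq_nonneg (w.embedding θ)
    have := pos hs.isReal_comp.embedding
    linarith [Complex.ofReal_eq_zero.1 e4]⟩
  have hi : Units.rank F + 1 = 2 * (Units.rank E + 1) := by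
    rw [Units.rank, Units.rank, Nat.sub_add_cancel Fintype.card_pos,
      Nat.sub_add_cancel Fintype.card_pos, IsUnramifiedAtInfinitePlaces.card_infinitePlace E F, h2,
      mul_comm]
  have fac : ∀ s t : E, algebraMap E F (s ^ 2 - a * t ^ 2) = (algebraMap E F s +
      algebraMap E F t * θ) * (algebraMap E F s - algebraMap E F t * θ) := fun s t => by
    rw [map_sub, map_mul, map_pow, map_pow, ← hθ]; ring
  have nf : ∀ (x : Un F) (s t : E), x.val = algebraMap E F s + algebraMap E F t * θ →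
      (Un.nrm E F x).val = s ^ 2 - a * t ^ 2 := fun x s t e => by
    have e1 := congrArg Un.val (rowNT2.inc_nrm E F _ σ 2 Nat.prime_two hG hσ x)
    rw [Nm_apply, Finset.sum_range_succ, Finset.sum_range_one, pow_zero, one_smul, pow_one,
      Un.val_inc, Un.val_add, Un.val_smul, e, AlgEquiv.smul_def, map_add, map_mul, key σ hσ,
      σ.commutes, σ.commutes, mul_neg, ← sub_eq_add_neg, ← fac] at e1
    exact (algebraMap E F).injective e1
  obtain ⟨u, d, hd, e⟩ := IsFractionRing.div_surjective (A := 𝓞 E) a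
  have d0 : algebraMap (𝓞 E) E d ≠ 0 := by simpa using nonZeroDivisors.ne_zero hd
  have i1 : IsIntegral ℤ (algebraMap E F (algebraMap (𝓞 E) E d) * θ) := by
    refine IsIntegral.of_pow two_pos ?_
    rw [mul_pow, hθ, ← map_pow, ← map_mul, ← e, sq, mul_assoc, mul_div_cancel₀ _ d0, ← map_mul]
    exact (RingOfIntegers.isIntegral_coe (d * u)).algebraMap
  set η : 𝓞 F := ⟨_, i1⟩ with hη
  have η0 : 2 * η ≠ 0 := mul_ne_zero two_ne_zero fun h => by
    have h1 : algebraMap E F (algebraMap (𝓞 E) E d) * θ = 0 := congrArg Subtype.val h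
    rw [(mul_eq_zero.1 h1).resolve_left ((map_ne_zero _).2 d0), zero_pow two_ne_zero] at hθ
    exact (map_ne_zero _).2 a0 hθ.symm
  obtain ⟨c1, p1, c2, p2, ec⟩ := exists_mkI (Un.mk c c0)
  obtain ⟨m0, q0, r0⟩ := exists_l η0
  obtain ⟨m1, q1, r1⟩ := exists_l p1
  obtain ⟨m2, q2, r2⟩ := exists_l p2
  obtain ⟨l, hl, k0, k1, k2⟩ : ∃ l, 2 ≤ l ∧ m0 ∣ l ∧ m1 ∣ l ∧ m2 ∣ l :=
    ⟨2 * (m0 * m1 * m2), Nat.le_mul_of_pos_right _ (by positivity), ⟨2 * m1 * m2, by ring⟩,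
      ⟨2 * m0 * m2, by ring⟩, ⟨2 * m0 * m1, by ring⟩⟩
  have l0 : l ≠ 0 := by omega
  have hun : Unr E F l := rowNT2.unr E F (F ≃ₐ[E] F) l fun s hs w => ⟨η, fun h => by
    have e1 : s • η - η = -(2 * η) := by
      rw [two_mul, neg_add, sub_eq_add_neg, add_left_inj]
      refine RingOfIntegers.ext ?_
      change s (algebraMap E F _ * θ) = -(algebraMap E F _ * θ)
      rw [map_mul, s.commutes, key s hs, mul_neg]
    rw [e1, neg_mem_iff] at h
    exact r0 l k0 w h⟩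
  have dc : dv E l (Un.mk c c0) = 0 := by
    ext w
    rw [ec, dv_apply, map_sub, (ord_eq_zero_iff _ _).2 ((val_eq_one_iff _ _).2 (r1 l k1 w)),
      (ord_eq_zero_iff _ _).2 ((val_eq_one_iff _ _).2 (r2 l k2 w))]
    rfl
  obtain ⟨M, hM⟩ := lay 2 Nat.prime_two E F _ σ l hG hσ hl hi hun
  have vc : ∀ w : Pl E l, 0 < w.1.valuation E c := fun w => by simpa [zero_lt_iff] using c0
  have vl : ∀ w : Pl E l, 0 < w.1.valuation E (l : E) := fun w => by simpa [zero_lt_iff] using l0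
  obtain ⟨s, t, hs⟩ := glob l0 H (fun w => w.1.valuation E l ^ (M + 1) * w.1.valuation E c)
    fun w => (mul_pos (pow_pos (vl w) _) (vc w)).ne'
  have vN : ∀ w : Pl E l, w.1.valuation E (s ^ 2 - a * t ^ 2) = w.1.valuation E c := fun w =>
    Valuation.map_eq_of_sub_lt _ ((hs w).trans_lt (mul_lt_of_lt_one_left (vc w)
      (pow_lt_one₀ zero_le (val_nat_lt_one w.2) (Nat.succ_ne_zero M))))
  have N0 : s ^ 2 - a * t ^ 2 ≠ 0 := fun h => by
    obtain ⟨w⟩ := exists_pl (E := E) hl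
    exact (vc w).ne ((vN w).symm.trans (by rw [h, map_zero])).symm
  have x0 : algebraMap E F s + algebraMap E F t * θ ≠ 0 :=
    left_ne_zero_of_mul (fac s t ▸ (map_ne_zero _).2 N0)
  have nx := nf (Un.mk _ x0) s t rfl
  have := (hM M le_rfl).1 (Un.mk c c0 - Un.nrm E F (Un.mk _ x0)) ⟨fun w hw => ?_, fun w hw => ?_⟩
    ⟨-dv F l (Un.mk _ x0), by rw [map_sub, dc, H10.rowNT1.dv_nrm, map_neg, zero_sub]⟩
  · obtain ⟨y, hy⟩ := add_mem this (⟨Un.mk _ x0, rfl⟩ : _ ∈ (Un.nrm E F).range)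
    obtain ⟨s', t', e'⟩ := sp y.val
    exact ⟨s', t', by rw [← nf y s' t' e', hy, sub_add_cancel, Un.val_mk]⟩
  · rw [Un.val_sub, nx, Un.val_mk, map_div₀, vN ⟨w, hw⟩, div_self (vc ⟨w, hw⟩).ne']
  · rw [Un.val_sub, nx, Un.val_mk, div_sub_one N0, map_div₀, vN ⟨w, hw⟩,
      div_le_iff₀ (vc ⟨w, hw⟩), Valuation.map_sub_swap]
    exact (hs ⟨w, hw⟩).trans (mul_le_mul_left
      (pow_le_pow_of_le_one zero_le (val_nat_le_one w l) M.le_succ) _)

end HN

theorem rowHN : RowHN := by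
  intro E _ _ a c a0 c0 pos H
  by_cases h : ∃ r, r ^ 2 = a
  · obtain ⟨r, rfl⟩ := h
    have r0 : r ≠ 0 := fun e => a0 (by rw [e, zero_pow two_ne_zero])
    exact ⟨(c + 1) / 2, (c - 1) / (2 * r), by field_simp; ring⟩
  have : Fact (∀ r, r ^ 2 ≠ a + 0 * r) := ⟨fun r e => h ⟨r, by simpa using e⟩⟩
  have := NumberField.of_module_finite E (QuadraticAlgebra E a 0)
  refine HN.main (F := QuadraticAlgebra E a 0) (θ := QuadraticAlgebra.omega)
    (QuadraticAlgebra.finrank_eq_two a 0) ?_ (fun x => ⟨x.re, x.im, ?_⟩) a0 c0 pos H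
  · ext <;> simp [sq]
  · ext <;> simp

end Pool.Agent.MP_b4c6b8_lc.H22
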