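import Pool.Agent.MP_b4c6b8_lc.H22.Spec

/-! Boxes cut out arbitrarily large finite parts of an infinite set of totally real integers. -/

namespace Pool.Agent.MP_b4c6b8_lc.H22

open NumberField Finset

namespace PH

/-- the mean of the logarithms of the conjugates -/
noncomputable def nu {F : Type*} [Field F] [Algebra ℚ F] (y : F) : ℝ :=
  Real.log ((minpoly ℚ y).coeff 0 : ℚ) / (minpoly ℚ y).natDegree

theorem nu_nonneg {y : Qb} (hy : IsIntegral ℤ y) : 0 ≤ nu y := by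
  unfold nu
  rw [minpoly.isIntegrallyClosed_eq_field_fractions' ℚ hy, Polynomial.coeff_map]
  exact div_nonneg (by simpa using Real.log_intCast_nonneg _) (Nat.cast_nonneg _)

theorem sum_log0 {F : Type*} [Field F] [NumberField F] {y : F} (hy : y ≠ 0) :
    ∑ τ : F →+* ℂ, Real.log ‖τ y‖ = Fintype.card (F →+* ℂ) * nu y := by
  have hi : IsIntegral ℚ y := Algebra.IsIntegral.isIntegral y
  have h1 : ∏ τ : F →+* ℂ, ‖τ y‖ = |((Algebra.norm ℚ y : ℚ) : ℝ)| := by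
    have := congrArg (‖·‖) (Algebra.norm_eq_prod_embeddings ℚ ℂ y)
    rw [norm_prod, ← Fintype.prod_equiv (RingHom.equivRatAlgHom F ℂ) (fun f => ‖f y‖)
      (fun φ => ‖φ y‖) fun _ => by simp [RingHom.equivRatAlgHom_apply]] at this
    rw [← this, eq_ratCast, ← Real.norm_eq_abs, ← Complex.norm_real, Complex.ofReal_ratCast]
  have h2 := Module.finrank_mul_finrank ℚ (IntermediateField.adjoin ℚ {y}) F
  have h3 : ((minpoly ℚ y).natDegree : ℝ) ≠ 0 := by exact_mod_cast (minpoly.natDegree_pos hi).ne'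
  rw [← Real.log_prod fun τ _ => norm_ne_zero_iff.2 ((map_ne_zero τ).2 hy), h1, Real.log_abs,
    Algebra.norm_eq_norm_adjoin, ← IntermediateField.adjoin.powerBasis_gen hi,
    Algebra.PowerBasis.norm_gen_eq_coeff_zero_minpoly, IntermediateField.adjoin.powerBasis_gen,
    IntermediateField.minpoly_gen, Embeddings.card, ← h2, IntermediateField.adjoin.finrank hi,
    Rat.cast_pow, Real.log_pow, ← Real.log_abs, nu]
  push_cast
  rw [abs_mul, abs_pow, abs_neg, abs_one, one_pow, one_mul, Real.log_abs]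
  field_simp

variable {F K : IntermediateField ℚ Qb}

instance alg : Algebra.IsAlgebraic ℚ Qb := AlgebraicClosure.isAlgebraic ℚ

instance algF : Algebra.IsAlgebraic F Qb := Algebra.IsAlgebraic.tower_top (K := ℚ) F

/-- an extension of an embedding -/
noncomputable def L (τ : F →+* ℂ) : Qb →+* ℂ := ComplexEmbedding.lift Qb τ

theorem L_coe (τ : F →+* ℂ) (y : F) : L τ (y : Qb) = τ y :=
  ComplexEmbedding.lift_algebraMap_apply Qb τ y

theorem tp_of {x : Qb} (hx : x ∈ F) (h : ∀ τ : F →+* ℂ, 0 ≤ (L τ x).re) : TP x := fun σ => by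
  have := h (σ.comp (algebraMap F Qb))
  rwa [L_coe _ ⟨x, hx⟩] at this

theorem sum_log [NumberField F] {x : Qb} (hx : x ∈ F) (h0 : x ≠ 0) :
    ∑ τ : F →+* ℂ, Real.log ‖L τ x‖ = Fintype.card (F →+* ℂ) * nu x := by
  have h := sum_log0 (y := (⟨x, hx⟩ : F)) fun e => h0 (congrArg Subtype.val e)
  rw [nu, ← minpoly.algebraMap_eq (algebraMap F Qb).injective] at h
  exact (sum_congr rfl fun τ _ => by rw [L_coe τ ⟨x, hx⟩]).trans h

theorem exF {U : Finset Qb} (hU : ∀ x ∈ U, x ∈ K) :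
    ∃ F : IntermediateField ℚ Qb, NumberField F ∧ F ≤ K ∧ ∀ x ∈ U, x ∈ F := by
  have := IntermediateField.finiteDimensional_adjoin (K := ℚ) (S := (U : Set Qb))
    fun x _ => Algebra.IsIntegral.isIntegral x
  exact ⟨IntermediateField.adjoin ℚ U, ⟨⟩, IntermediateField.adjoin_le_iff.2 hU,
    fun x hx => IntermediateField.subset_adjoin ℚ _ hx⟩

theorem norm_eq (hK : TR K) {x : Qb} (hx : x ∈ K) (σ : Qb →+* ℂ) : ‖σ x‖ = |(σ x).re| :=
  (Complex.abs_re_eq_norm.2 (hK x hx σ)).symm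

/-- a box -/
def Bx (S : Set Qb) (a b : Qb) : Set Qb := {x | x ∈ S ∧ TP (x - a) ∧ TP (b - x)}

variable {S : Set Qb} {a b : Qb}

theorem Bx_re {x : Qb} (hx : x ∈ Bx S a b) (σ : Qb →+* ℂ) :
    (σ a).re ≤ (σ x).re ∧ (σ x).re ≤ (σ b).re := by
  have h1 := hx.2.1 σ
  have h2 := hx.2.2 σ
  rw [map_sub, Complex.sub_re, sub_nonneg] at h1 h2
  exact ⟨h1, h2⟩

theorem two (hK : TR K) (hS : S ⊆ K) {x y : Qb} (hx : x ∈ Bx S a b) (hy : y ∈ Bx S a b)
    (σ : Qb →+* ℂ) : ‖σ (x - y)‖ ≤ (σ b).re - (σ a).re := by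
  rw [norm_eq hK (sub_mem (hS hx.1) (hS hy.1)), map_sub, Complex.sub_re, abs_le]
  obtain ⟨h1, h2⟩ := Bx_re hx σ
  obtain ⟨h3, h4⟩ := Bx_re hy σ
  constructor <;> linarith

theorem wid (hK : TR K) (hS : S ⊆ K) (h : (Bx S a b).Infinite) (σ : Qb →+* ℂ) :
    0 < (σ b).re - (σ a).re := by
  obtain ⟨x, hx, y, hy, hne⟩ := h.nontrivial
  exact (norm_pos_iff.2 ((map_ne_zero σ).2 (sub_ne_zero.2 hne))).trans_le (two hK hS hx hy σ)

theorem ne0 {σ : Qb →+* ℂ} (h : 0 < (σ b).re - (σ a).re) : b - a ≠ 0 := fun e => by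
  rw [sub_eq_zero.1 e, sub_self] at h
  exact h.false

theorem norm_wid (hK : TR K) (ha : a ∈ K) (hb : b ∈ K) {σ : Qb →+* ℂ}
    (h : 0 < (σ b).re - (σ a).re) : ‖σ (b - a)‖ = (σ b).re - (σ a).re := by
  rw [norm_eq hK (sub_mem hb ha), map_sub, Complex.sub_re, abs_of_pos h]

theorem box_nonneg (hK : TR K) (hS : S ⊆ K) (hI : ∀ x ∈ S, IsIntegral ℤ x) (ha : a ∈ K)
    (hb : b ∈ K) (h : (Bx S a b).Infinite) : 0 ≤ nu (b - a) := by
  classical
  obtain ⟨x, hx, y, hy, hne⟩ := h.nontrivial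
  obtain ⟨F, _, -, hF⟩ := exF (K := K) (U := {a, b, x, y}) (by simpa [ha, hb] using ⟨hS hx.1, hS hy.1⟩)
  have h0 := sub_ne_zero.2 hne
  have h1 := sum_log (F := F) (sub_mem (hF x (by simp)) (hF y (by simp))) h0
  obtain ⟨τ0⟩ : Nonempty (F →+* ℂ) := inferInstance
  have h2 := sum_log (F := F) (sub_mem (hF b (by simp)) (hF a (by simp))) (ne0 (wid hK hS h (L τ0)))
  have h3 : ∑ τ : F →+* ℂ, Real.log ‖L τ (x - y)‖ ≤ ∑ τ : F →+* ℂ, Real.log ‖L τ (b - a)‖ :=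
    sum_le_sum fun τ _ => Real.log_le_log (norm_pos_iff.2 ((map_ne_zero _).2 h0))
      ((two hK hS hx hy _).trans_eq (norm_wid hK ha hb (wid hK hS h _)).symm)
  rw [h1, h2] at h3
  exact (nu_nonneg ((hI x hx.1).sub (hI y hy.1))).trans
    (le_of_mul_le_mul_left h3 (by exact_mod_cast Fintype.card_pos))

theorem half {U : Finset Qb} {N : ℕ} (hU : U.card = 2 * N) (f : Qb → ℝ) {l r : ℝ}
    (h : ∀ x ∈ U, l ≤ f x ∧ f x ≤ r) :
    ∃ T ∈ U.powersetCard N, ∃ s : ℝ, ∀ x ∈ T, s ≤ f x ∧ f x ≤ s + (r - l) / 2 := by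
  have h1 := card_filter_add_card_filter_not (s := U) fun x => f x ≤ (l + r) / 2
  rcases le_or_gt N (U.filter fun x => f x ≤ (l + r) / 2).card with h2 | h2
  · obtain ⟨T, hT, hc⟩ := exists_subset_card_eq h2
    refine ⟨T, mem_powersetCard.2 ⟨hT.trans (filter_subset _ _), hc⟩, l, fun x hx => ?_⟩
    obtain ⟨e1, e2⟩ := mem_filter.1 (hT hx)
    exact ⟨(h x e1).1, by linarith⟩
  · obtain ⟨T, hT, hc⟩ := exists_subset_card_eq
      (show N ≤ (U.filter fun x => ¬f x ≤ (l + r) / 2).card by omega)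
    refine ⟨T, mem_powersetCard.2 ⟨hT.trans (filter_subset _ _), hc⟩, (l + r) / 2, fun x hx => ?_⟩
    obtain ⟨e1, e2⟩ := mem_filter.1 (hT hx)
    exact ⟨(not_le.1 e2).le, by linarith [(h x e1).2]⟩

theorem step (hW : RowWA) (hK : TR K) (hS : S ⊆ K) (N : ℕ) (ha : a ∈ K) (hb : b ∈ K)
    (h : (Bx S a b).Infinite) : ∃ a' ∈ K, ∃ b' ∈ K, (∃ T : Finset Qb, ↑T ⊆ Bx S a' b' ∧ T.card = N) ∧
      nu (b' - a') ≤ nu (b - a) - 1 / (4 * ((2 * N).choose N : ℕ)) := by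
  classical
  obtain ⟨U, hU, hc⟩ := h.exists_subset_card_eq (2 * N)
  obtain ⟨F, _, hFK, hF⟩ := exF (K := K) (U := insert a (insert b U)) fun x hx => by
    simp only [mem_insert] at hx
    rcases hx with rfl | rfl | hx
    exacts [ha, hb, hS (hU hx).1]
  have hw := fun τ : F →+* ℂ => wid hK hS h (L τ)
  choose T hT s hs using fun τ : F →+* ℂ =>
    half hc (fun x => (L τ x).re) fun x hx => Bx_re (hU hx) (L τ)
  obtain ⟨C, hC⟩ : ∃ C : ℝ, C = ((2 * N).choose N : ℕ) := ⟨_, rfl⟩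
  have hC0 : 0 < C := by
    rw [hC]
    exact_mod_cast Nat.choose_pos (by omega)
  obtain ⟨τ0⟩ : Nonempty (F →+* ℂ) := inferInstance
  obtain ⟨T0, hT0, hG⟩ := exists_le_card_fiber_of_nsmul_le_card_of_maps_to (s := univ) (f := T)
    (b := (Fintype.card (F →+* ℂ) : ℝ) / C) (fun τ _ => hT τ) ⟨_, hT τ0⟩ (by
      rw [card_powersetCard, hc, nsmul_eq_mul, ← hC, mul_div_cancel₀ _ hC0.ne', card_univ])
  obtain ⟨τ1, hτ1⟩ := Finite.exists_min fun τ : F →+* ℂ => (L τ b).re - (L τ a).re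
  obtain ⟨ε, hε⟩ : ∃ ε : ℝ, ε = ((L τ1 b).re - (L τ1 a).re) / (16 * C) := ⟨_, rfl⟩
  have hε0 : 0 < ε := hε ▸ div_pos (hw τ1) (by positivity)
  have hF' : TR F := fun x hx => hK x (hFK hx)
  obtain ⟨lo, hlo⟩ : ∃ lo : (F →+* ℂ) → ℝ, ∀ τ, lo τ = if T τ = T0 then s τ else (L τ a).re :=
    ⟨_, fun _ => rfl⟩
  obtain ⟨q, hq⟩ : ∃ q : (F →+* ℂ) → ℝ, ∀ τ, q τ = if T τ = T0 then 1 / 2 else 0 :=
    ⟨_, fun _ => rfl⟩
  obtain ⟨a', ha'⟩ := hW F hF' (fun τ => lo τ - ε) ε hε0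
  obtain ⟨b', hb'⟩ := hW F hF' (fun τ => lo τ + (1 - q τ) * ((L τ b).re - (L τ a).re) + ε) ε hε0
  simp only [← L_coe, abs_lt] at ha' hb'
  have hq1 : ∀ τ, q τ ≤ 1 / 2 := fun τ => by
    rw [hq]
    split_ifs <;> norm_num
  have hpos : ∀ τ : F →+* ℂ, 0 < (L τ b').re - (L τ a').re := fun τ => by
    nlinarith [(ha' τ).2, (hb' τ).1, hw τ, hq1 τ]
  obtain ⟨hT1, hT2⟩ := mem_powersetCard.1 hT0
  refine ⟨a', hFK a'.2, b', hFK b'.2, ⟨T0, fun x hx => ?_, hT2⟩, ?_⟩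
  · have hxU := hT1 hx
    have hxF : x ∈ F := hF x (by simp [hxU])
    have key : ∀ τ : F →+* ℂ, lo τ ≤ (L τ x).re ∧
        (L τ x).re ≤ lo τ + (1 - q τ) * ((L τ b).re - (L τ a).re) := fun τ => by
      rw [hlo, hq]
      split_ifs with e
      · obtain ⟨e1, e2⟩ := hs τ x (e ▸ hx)
        exact ⟨e1, by linarith⟩
      · obtain ⟨e1, e2⟩ := Bx_re (hU hxU) (L τ)
        exact ⟨e1, by linarith⟩
    refine ⟨(hU hxU).1, tp_of (sub_mem hxF a'.2) fun τ => ?_, tp_of (sub_mem b'.2 hxF) fun τ => ?_⟩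
    · rw [map_sub, Complex.sub_re]
      linarith [(key τ).1, (ha' τ).2]
    · rw [map_sub, Complex.sub_re]
      linarith [(key τ).2, (hb' τ).1]
  · have h1 := sum_log (F := F) (sub_mem b'.2 a'.2) (ne0 (hpos τ0))
    have h2 := sum_log (F := F) (sub_mem (hF b (by simp)) (hF a (by simp))) (ne0 (hw τ0))
    have h3 : ∑ τ : F →+* ℂ, Real.log ‖L τ (b' - a')‖ ≤
        ∑ τ : F →+* ℂ, (Real.log ‖L τ (b - a)‖ + (1 / (4 * C) - q τ)) := by
      refine sum_le_sum fun τ _ => ?_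
      rw [norm_wid hK (hFK a'.2) (hFK b'.2) (hpos τ), norm_wid hK ha hb (hw τ), ← sub_le_iff_le_add',
        ← Real.log_div (hpos τ).ne' (hw τ).ne']
      refine (Real.log_le_sub_one_of_pos (div_pos (hpos τ) (hw τ))).trans ?_
      have e1 : 4 * ε ≤ 1 / (4 * C) * ((L τ b).re - (L τ a).re) := by
        calc 4 * ε = 1 / (4 * C) * ((L τ1 b).re - (L τ1 a).re) := by
              rw [hε]
              field_simp
              ring
          _ ≤ _ := mul_le_mul_of_nonneg_left (hτ1 τ) (by positivity)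
      rw [sub_le_iff_le_add, div_le_iff₀ (hw τ)]
      nlinarith [(ha' τ).1, (hb' τ).2]
    have h4 : ∑ τ, q τ = 1 / 2 * ((univ.filter fun τ => T τ = T0).card : ℝ) := by
      simp only [hq]
      rw [← sum_filter, sum_const, nsmul_eq_mul, mul_comm]
    rw [sum_add_distrib, sum_sub_distrib, h1, h2, h4, sum_const, card_univ, nsmul_eq_mul] at h3
    have hn : (0 : ℝ) < Fintype.card (F →+* ℂ) := by exact_mod_cast Fintype.card_pos
    rw [← hC]
    refine le_of_mul_le_mul_left ?_ hn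
    have e2 : (Fintype.card (F →+* ℂ) : ℝ) / C = 4 * (Fintype.card (F →+* ℂ) * (1 / (4 * C))) := by
      field_simp
    rw [mul_sub]
    linarith

theorem start (hS : S ⊆ K) {U : Finset Qb} (hU : ↑U ⊆ S) :
    ∃ a ∈ K, ∃ b ∈ K, ↑U ⊆ Bx S a b := by
  obtain ⟨F, _, -, hF⟩ := exF (K := K) (U := U) fun x hx => hS (hU hx)
  obtain ⟨M, hM⟩ := Finite.exists_le fun p : U × (F →+* ℂ) => ⌈|(L p.2 p.1).re|⌉₊
  refine ⟨-M, neg_mem (natCast_mem K M), M, natCast_mem K M, fun x hx => ?_⟩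
  have h1 : ∀ τ : F →+* ℂ, |(L τ x).re| ≤ M := fun τ => Nat.ceil_le.1 (hM (⟨x, hx⟩, τ))
  refine ⟨hU hx, tp_of (sub_mem (hF x hx) (neg_mem (natCast_mem F M))) fun τ => ?_,
    tp_of (sub_mem (natCast_mem F M) (hF x hx)) fun τ => ?_⟩
  · simpa using (by linarith [(abs_le.1 (h1 τ)).1] : 0 ≤ (L τ x).re + M)
  · simpa using (abs_le.1 (h1 τ)).2

end PH

open PH in
theorem rowPH : RowWA → RowPH := by
  intro hW K hK S hS hinf hI N
  by_contra hcon
  have key : ∀ a ∈ K, ∀ b ∈ K, ∀ T : Finset Qb, ↑T ⊆ Bx S a b → T.card = N →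
      (Bx S a b).Infinite := fun a ha b hb T hT hc hf =>
    hcon ⟨a, ha, b, hb, hf, by
      rw [← hc, ← Set.ncard_coe_finset]
      exact Set.ncard_le_ncard hT hf⟩
  obtain ⟨U, hU, hc⟩ := hinf.exists_subset_card_eq N
  obtain ⟨a0, ha0, b0, hb0, h0⟩ := start hS hU
  obtain ⟨η, hη⟩ : ∃ η : ℝ, η = 1 / (4 * ((2 * N).choose N : ℕ)) := ⟨_, rfl⟩
  have hη0 : 0 < η := by
    have : (0 : ℝ) < ((2 * N).choose N : ℕ) := by exact_mod_cast Nat.choose_pos (by omega)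
    rw [hη]
    positivity
  have it : ∀ k : ℕ, ∃ a ∈ K, ∃ b ∈ K, (Bx S a b).Infinite ∧ nu (b - a) ≤ nu (b0 - a0) - k * η := by
    intro k
    induction k with
    | zero => exact ⟨a0, ha0, b0, hb0, key _ ha0 _ hb0 U h0 hc, by simp⟩
    | succ k ih =>
      obtain ⟨a, ha, b, hb, h1, h2⟩ := ih
      obtain ⟨a', ha', b', hb', ⟨T, hT, hTc⟩, h3⟩ := step hW hK hS N ha hb h1
      refine ⟨a', ha', b', hb', key _ ha' _ hb' T hT hTc, ?_⟩
      rw [← hη] at h3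
      push_cast
      linarith
  obtain ⟨k, hk⟩ := exists_nat_gt (nu (b0 - a0) / η)
  obtain ⟨a, ha, b, hb, h1, h2⟩ := it k
  rw [div_lt_iff₀ hη0] at hk
  linarith [box_nonneg hK hS hI ha hb h1]

end Pool.Agent.MP_b4c6b8_lc.H22
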