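import Pool.Agent.MP_b4c6b8_lc.H22.SH

/-! Row POS: total positivity inside a totally real field of any degree. -/

namespace Pool.Agent.MP_b4c6b8_lc.H22

namespace POS

/-- a complex embedding with real values gives a real embedding -/
def toReal {F : Type} [Field F] (σ : F →+* ℂ) (h : ∀ x, (σ x).im = 0) : F →+* ℝ where
  toFun x := (σ x).re
  map_one' := by simp
  map_mul' x y := by rw [map_mul, Complex.mul_re, h x, h y]; ring
  map_zero' := by simp
  map_add' x y := by rw [map_add, Complex.add_re]

end POS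

open SH POS in
theorem rowPOS : RowSQ → RowPOS := by
  classical
  intro hSQ K hK y hy
  constructor
  · intro hTP
    by_cases hy0 : y = 0
    · exact ⟨fun _ => 0, fun _ => K.zero_mem, by simp [hy0]⟩
    have := alg
    let F : IntermediateField ℚ Qb := IntermediateField.adjoin ℚ {y}
    have hFK : F ≤ K := by
      rw [IntermediateField.adjoin_le_iff]
      rintro x rfl
      exact hy
    have hfd : FiniteDimensional ℚ F :=
      IntermediateField.adjoin.finiteDimensional
        (Algebra.IsAlgebraic.isAlgebraic (R := ℚ) y).isIntegral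
    have : NumberField F := ⟨⟩
    have him : ∀ (σ : F →+* ℂ) (x : F), (σ x).im = 0 := by
      intro σ x
      obtain ⟨τ, hτ⟩ := ext_emb F σ
      rw [← hτ]; exact hK x (hFK x.2) τ
    let y' : F := ⟨y, IntermediateField.mem_adjoin_simple_self ℚ y⟩
    have hy' : y' ≠ 0 := fun h => hy0 (congrArg (fun x : F => (x : Qb)) h)
    have hne : Nonempty (F →+* ℝ) := by
      obtain ⟨σ⟩ : Nonempty (F →+* ℂ) := inferInstance
      exact ⟨toReal σ (him σ)⟩
    have hpos : ∀ φ : F →+* ℝ, 0 < φ y' := by
      intro φ
      obtain ⟨τ, hτ⟩ := ext_emb F (Complex.ofRealHom.comp φ)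
      have h1 := hTP τ
      have h2 : τ y = ((φ y' : ℝ) : ℂ) := hτ y'
      rw [h2, Complex.ofReal_re] at h1
      exact lt_of_le_of_ne h1 (fun h => hy' (φ.injective (by rw [← h, map_zero])))
    obtain ⟨x, hx⟩ := hSQ F y' hne hpos
    refine ⟨fun i => (x i : Qb), fun i => hFK (x i).2, ?_⟩
    have h3 := congrArg (algebraMap F Qb) hx
    rw [map_sum] at h3
    simpa using h3
  · rintro ⟨x, hx, rfl⟩ σ
    rw [map_sum, Complex.re_sum]
    refine Finset.sum_nonneg fun i _ => ?_
    rw [map_pow, sq, Complex.mul_re, hK _ (hx i) σ, mul_zero, sub_zero]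
    exact mul_self_nonneg _

end Pool.Agent.MP_b4c6b8_lc.H22
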