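import Pool.Agent.MP_b4c6b8_lc.H22.Spec

/-! Row SH: the real places of a totally real field of infinite degree shatter finite sets. -/

namespace Pool.Agent.MP_b4c6b8_lc.H22

namespace SH

theorem alg : Algebra.IsAlgebraic ℚ Qb := AlgebraicClosure.isAlgebraic ℚ

/-- every embedding of a subfield of `Qb` extends to `Qb` -/
theorem ext_emb (F : IntermediateField ℚ Qb) (σ : F →+* ℂ) :
    ∃ τ : Qb →+* ℂ, ∀ x : F, τ x = σ x := by
  let _ : Algebra F ℂ := σ.toAlgebra
  have := alg
  have : Algebra.IsAlgebraic F Qb := Algebra.IsAlgebraic.tower_top (K := ℚ) F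
  let l : Qb →ₐ[F] ℂ := IsAlgClosed.lift
  exact ⟨l.toRingHom, fun x => l.commutes x⟩

/-- a number field of large degree between `U` and `K` -/
theorem big_sub (K : IntermediateField ℚ Qb) (hK : ¬ FiniteDimensional ℚ K) (U : Finset Qb)
    (hU : ∀ z ∈ U, z ∈ K) (n : ℕ) :
    ∃ F : IntermediateField ℚ Qb, F ≤ K ∧ FiniteDimensional ℚ F ∧ (∀ z ∈ U, z ∈ F) ∧
      n ≤ Module.finrank ℚ F := by
  have h1 : (n : Cardinal) ≤ Module.rank ℚ K := by
    have : ¬ Module.rank ℚ K < Cardinal.aleph0 := fun h => hK (Module.rank_lt_aleph0_iff.1 h)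
    exact le_trans Cardinal.natCast_lt_aleph0.le (not_lt.1 this)
  obtain ⟨f, hf⟩ := exists_linearIndependent_of_le_rank h1
  let S : Set Qb := (U : Set Qb) ∪ Set.range (fun i => (f i : Qb))
  have hS : S.Finite := U.finite_toSet.union (Set.finite_range _)
  have : Finite S := hS.to_subtype
  have := alg
  have hfd : FiniteDimensional ℚ (IntermediateField.adjoin ℚ S) :=
    IntermediateField.finiteDimensional_adjoin
      (fun x _ => (Algebra.IsAlgebraic.isAlgebraic (R := ℚ) x).isIntegral)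
  refine ⟨IntermediateField.adjoin ℚ S, ?_, hfd, ?_, ?_⟩
  · rw [IntermediateField.adjoin_le_iff]
    rintro x (hx | ⟨i, rfl⟩)
    · exact hU x hx
    · exact (f i).2
  · intro z hz
    exact IntermediateField.subset_adjoin ℚ S (Or.inl hz)
  · let g : Fin n → IntermediateField.adjoin ℚ S := fun i =>
      ⟨(f i : Qb), IntermediateField.subset_adjoin ℚ S (Or.inr ⟨i, rfl⟩)⟩
    have h2 : LinearIndependent ℚ (fun i => (f i : Qb)) :=
      hf.map' (K.val.toLinearMap) (LinearMap.ker_eq_bot.2 Subtype.val_injective)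
    have h3 : LinearIndependent ℚ g :=
      LinearIndependent.of_comp (IntermediateField.adjoin ℚ S).val.toLinearMap h2
    simpa using h3.fintype_card_le_finrank

/-- a uniform positive lower bound for finitely many positive reals -/
theorem ex_delta {α : Type*} [Finite α] (g : α → ℝ) (hg : ∀ a, 0 < g a) :
    ∃ δ : ℝ, 0 < δ ∧ ∀ a, 2 * δ ≤ g a := by
  rcases isEmpty_or_nonempty α with h | h
  · exact ⟨1, one_pos, fun a => (h.false a).elim⟩
  · obtain ⟨a, ha⟩ := Finite.exists_min g
    exact ⟨g a / 2, by linarith [hg a], fun b => by linarith [ha b]⟩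

end SH

open SH in
theorem rowSH : RowWA → RowSH := by
  classical
  intro hWA K hK hfin U T hU
  obtain ⟨F, hFK, hfd, hUF, hn⟩ := big_sub K hfin U hU U.card
  have : NumberField F := ⟨⟩
  have hF : TR F := fun x hx σ => hK x (hFK hx) σ
  have him : ∀ (σ : F →+* ℂ) (x : F), (σ x).im = 0 := by
    intro σ x
    obtain ⟨τ, hτ⟩ := ext_emb F σ
    rw [← hτ]; exact hF x x.2 τ
  have hcard : Fintype.card U ≤ Fintype.card (F →+* ℂ) := by
    rw [NumberField.Embeddings.card F ℂ]; simpa using hn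
  obtain ⟨ι⟩ := Function.Embedding.nonempty_of_card_le hcard
  let e : U → F := fun z => ⟨z.1, hUF z.1 z.2⟩
  have he : Function.Injective e := fun a b h => Subtype.ext (congrArg (fun x : F => (x : Qb)) h)
  let r : (F →+* ℂ) → U → ℝ := fun σ z => (σ (e z)).re
  have hr : ∀ σ, Function.Injective (r σ) := by
    intro σ a b h
    apply he
    apply σ.injective
    exact Complex.ext h (by rw [him, him])
  -- the centre at each place
  let c : (F →+* ℂ) → ℝ := fun σ =>
    if h : ∃ z : U, (z : Qb) ∉ T ∧ ι z = σ then r σ h.choose else ∑ z, |r σ z| + 1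
  have hc : ∀ σ (z : U), r σ z = c σ ↔ ((z : Qb) ∉ T ∧ ι z = σ) := by
    intro σ z
    by_cases h : ∃ z : U, (z : Qb) ∉ T ∧ ι z = σ
    · have h1 : c σ = r σ h.choose := dif_pos h
      have h2 := h.choose_spec
      rw [h1]
      constructor
      · intro h3
        have := hr σ h3
        rw [this]; exact h2
      · intro h3
        have : z = h.choose := ι.injective (h3.2.trans h2.2.symm)
        rw [← this]
    · have h1 : c σ = ∑ z, |r σ z| + 1 := dif_neg h
      rw [h1]
      constructor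
      · intro h3
        have h4 : |r σ z| ≤ ∑ z, |r σ z| :=
          Finset.single_le_sum (f := fun z => |r σ z|) (fun _ _ => abs_nonneg _) (Finset.mem_univ z)
        have h5 := le_abs_self (r σ z)
        linarith
      · intro h3; exact absurd ⟨z, h3⟩ h
  obtain ⟨δ, hδ, hδ2⟩ := ex_delta
    (fun a : {a : (F →+* ℂ) × U // r a.1 a.2 ≠ c a.1} => |r a.1.1 a.1.2 - c a.1.1|)
    (fun a => abs_pos.2 (sub_ne_zero.2 a.2))
  obtain ⟨p, hp⟩ := hWA F hF (fun σ => c σ - δ) (δ / 2) (by linarith)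
  obtain ⟨q, hq⟩ := hWA F hF (fun σ => c σ + δ) (δ / 2) (by linarith)
  refine ⟨p, hFK p.2, q, hFK q.2, fun z hz => ?_⟩
  let z' : U := ⟨z, hz⟩
  have key : ∀ σ : F →+* ℂ, (σ ((e z' - p) * (e z' - q))).re
      = (r σ z' - (σ p).re) * (r σ z' - (σ q).re) := by
    intro σ
    rw [map_mul, Complex.mul_re, him, him, map_sub, map_sub, Complex.sub_re, Complex.sub_re]
    simp [r]
  have hcoe : (((e z' - p) * (e z' - q) : F) : Qb) = (z - p) * (z - q) := by
    push_cast; rfl
  constructor
  · intro hTP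
    by_contra hT
    obtain ⟨τ, hτ⟩ := ext_emb F (ι z')
    have h1 := hTP τ
    rw [← hcoe, hτ, key] at h1
    have h2 : r (ι z') z' = c (ι z') := (hc _ z').2 ⟨hT, rfl⟩
    have h3 := abs_lt.1 (hp (ι z'))
    have h4 := abs_lt.1 (hq (ι z'))
    have h5 : 0 < r (ι z') z' - ((ι z') p).re := by linarith [h3.2]
    have h6 : r (ι z') z' - ((ι z') q).re < 0 := by linarith [h4.1]
    exact absurd h1 (not_le.2 (mul_neg_of_pos_of_neg h5 h6))
  · intro hT τ
    let σ : F →+* ℂ := τ.comp (algebraMap F Qb)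
    have hτ : ∀ x : F, τ x = σ x := fun x => rfl
    rw [← hcoe, hτ, key]
    have h2 : r σ z' ≠ c σ := fun h => ((hc σ z').1 h).1 hT
    have h7 : 2 * δ ≤ |r σ z' - c σ| := hδ2 ⟨(σ, z'), h2⟩
    have h3 := abs_lt.1 (hp σ)
    have h4 := abs_lt.1 (hq σ)
    rcases le_abs'.1 h7 with h8 | h8
    · exact mul_nonneg_of_nonpos_of_nonpos (by linarith [h3.1]) (by linarith [h4.1])
    · exact mul_nonneg (by linarith [h3.2]) (by linarith [h4.2])

end Pool.Agent.MP_b4c6b8_lc.H22
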