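import Pool.Agent.MP_b4c6b8_lc.H22.Spec

/-! Totally positive elements of a formally real number field are sums of six squares. -/

namespace Pool.Agent.MP_b4c6b8_lc.H22

open NumberField IsDedekindDomain

namespace SQ

/-- Newton iteration for a monic quadratic -/
theorem newton {R : Type*} [CommRing R] (I : Ideal R) (b c x0 u : R)
    (h0 : x0 ^ 2 + b * x0 + c ∈ I) (hu : 1 - u * (2 * x0 + b) ∈ I) (n : ℕ) :
    ∃ x, x - x0 ∈ I ∧ x ^ 2 + b * x + c ∈ I ^ (n + 1) := by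
  induction n with
  | zero => exact ⟨x0, by simp, by simpa using h0⟩
  | succ n ih =>
    obtain ⟨x, hx, hf⟩ := ih
    have hfI : x ^ 2 + b * x + c ∈ I := Ideal.pow_le_self (by omega) hf
    refine ⟨x - u * (x ^ 2 + b * x + c), ?_, ?_⟩
    · have : x - u * (x ^ 2 + b * x + c) - x0 = (x - x0) - u * (x ^ 2 + b * x + c) := by ring
      rw [this]
      exact I.sub_mem hx (I.mul_mem_left _ hfI)
    · have e : (x - u * (x ^ 2 + b * x + c)) ^ 2 + b * (x - u * (x ^ 2 + b * x + c)) + c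
          = (x ^ 2 + b * x + c) * ((1 - u * (2 * x0 + b)) - 2 * u * (x - x0)
            + u ^ 2 * (x ^ 2 + b * x + c)) := by ring
      rw [e, pow_succ I (n + 1)]
      exact Ideal.mul_mem_mul hf
        (I.add_mem (I.sub_mem hu (I.mul_mem_left _ hx)) (I.mul_mem_left _ hfI))

/-- minus one is a sum of two squares modulo every power of a prime -/
theorem local_sq {E : Type} [Field E] [NumberField E] (X r : 𝓞 E) (hX : X ^ 2 + X + 1 = 2 * r)
    (w : HeightOneSpectrum (𝓞 E)) (n : ℕ) :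
    ∃ s t : 𝓞 E, s ^ 2 + t ^ 2 + 1 ∈ w.asIdeal ^ n := by
  have hmax : w.asIdeal.IsMaximal := w.isMaximal
  have hle : w.asIdeal ^ (n + 1) ≤ w.asIdeal ^ n := Ideal.pow_le_pow_right (by omega)
  by_cases h2 : (2 : 𝓞 E) ∈ w.asIdeal
  · obtain ⟨x, -, hx⟩ := newton w.asIdeal 1 1 X 1
      (by rw [one_mul, hX]; exact w.asIdeal.mul_mem_right _ h2)
      (by
        have : (1 : 𝓞 E) - 1 * (2 * X + 1) = 2 * (-X) := by ring
        rw [this]; exact w.asIdeal.mul_mem_right _ h2) n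
    refine ⟨x, x + 1, ?_⟩
    have : x ^ 2 + (x + 1) ^ 2 + 1 = 2 * (x ^ 2 + 1 * x + 1) := by ring
    rw [this]
    exact Ideal.mul_mem_left _ _ (hle hx)
  · have key : ∀ a b : 𝓞 E, a ∉ w.asIdeal → a ^ 2 + b ^ 2 + 1 ∈ w.asIdeal →
        ∃ s : 𝓞 E, s ^ 2 + b ^ 2 + 1 ∈ w.asIdeal ^ n := by
      intro a b ha hab
      have h2a : 2 * a ∉ w.asIdeal := fun h => by
        rcases w.isPrime.mem_or_mem h with h | h
        · exact h2 h
        · exact ha h
      obtain ⟨u, i, hi, hu⟩ := hmax.exists_inv h2a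
      obtain ⟨x, -, hx⟩ := newton w.asIdeal 0 (b ^ 2 + 1) a u
        (by simpa [add_assoc] using hab)
        (by
          have : 1 - u * (2 * a + 0) = i := by rw [← hu]; ring
          rw [this]; exact hi) n
      exact ⟨x, by simpa [add_assoc] using hle hx⟩
    have : Finite (𝓞 E ⧸ w.asIdeal) := Ideal.finiteQuotientOfFreeOfNeBot _ w.ne_bot
    have := w.isPrime
    obtain ⟨p, hp⟩ := CharP.exists (𝓞 E ⧸ w.asIdeal)
    have : NeZero p := ⟨CharP.char_ne_zero_of_finite (𝓞 E ⧸ w.asIdeal) p⟩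
    obtain ⟨a, b, hab⟩ := CharP.sq_add_sq (𝓞 E ⧸ w.asIdeal) p (-1)
    have hmem : (a : 𝓞 E) ^ 2 + (b : 𝓞 E) ^ 2 + 1 ∈ w.asIdeal := by
      rw [← Ideal.Quotient.eq_zero_iff_mem]
      simp only [map_add, map_pow, map_natCast, map_one]
      rw [hab]; simp
    by_cases ha : (a : 𝓞 E) ∈ w.asIdeal
    · have hb : (b : 𝓞 E) ∉ w.asIdeal := fun hb => by
        apply hmax.ne_top
        rw [Ideal.eq_top_iff_one]
        have : (1 : 𝓞 E) = ((a : 𝓞 E) ^ 2 + (b : 𝓞 E) ^ 2 + 1) - a * a - b * b := by ring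
        rw [this]
        exact w.asIdeal.sub_mem (w.asIdeal.sub_mem hmem (w.asIdeal.mul_mem_left _ ha))
          (w.asIdeal.mul_mem_left _ hb)
      obtain ⟨s, hs⟩ := key b a hb (by rwa [add_comm ((b : 𝓞 E) ^ 2)])
      exact ⟨s, a, hs⟩
    · obtain ⟨s, hs⟩ := key a b ha hmem
      exact ⟨s, b, hs⟩

/-- a large multiple of a totally positive element is eight times an integer and above five -/
theorem scale {k : Type} [Field k] [NumberField k] (y : k) (hy : ∀ φ : k →+* ℝ, 0 < φ y) :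
    ∃ (N : ℕ) (r : k), N ≠ 0 ∧ IsIntegral ℤ r ∧ (N : k) ^ 2 * y = 8 * r ∧
      ∀ φ : k →+* ℝ, 0 < φ (8 * r - 5) := by
  obtain ⟨D, hD, hint⟩ : ∃ D : ℤ, D ≠ 0 ∧ IsIntegral ℤ (D • y) := by
    have : IsAlgebraic ℤ y :=
      (IsFractionRing.isAlgebraic_iff ℤ ℚ k).2 (Algebra.IsAlgebraic.isAlgebraic y)
    exact this.exists_integral_multiple
  have hfin : Finite (k →+* ℝ) :=
    Finite.of_injective (fun φ : k →+* ℝ => Complex.ofRealHom.comp φ) (fun φ ψ h => by
      ext x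
      have := RingHom.congr_fun h x
      simpa using this)
  obtain ⟨B, hB⟩ : ∃ B : ℝ, ∀ φ : k →+* ℝ, (φ y)⁻¹ ≤ B := by
    obtain ⟨B, hB⟩ := (Set.finite_range fun φ : k →+* ℝ => (φ y)⁻¹).bddAbove
    exact ⟨B, fun φ => hB ⟨φ, rfl⟩⟩
  obtain ⟨M, hM⟩ := exists_nat_ge (max B 1)
  have hM1 : (1 : ℝ) ≤ M := le_trans (le_max_right _ _) hM
  have hM0 : M ≠ 0 := by rintro rfl; norm_num at hM1
  refine ⟨4 * M * D.natAbs, 2 * (M : k) ^ 2 * D * (D • y), by positivity, ?_, ?_, ?_⟩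
  · refine IsIntegral.mul ?_ hint
    have : (2 * (M : k) ^ 2 * D) = algebraMap ℤ k (2 * (M : ℤ) ^ 2 * D) := by simp
    rw [this]
    exact isIntegral_algebraMap
  · have : ((D.natAbs : ℕ) : k) ^ 2 = (D : k) ^ 2 := by
      rw [← Int.cast_natCast, ← Int.cast_pow, Int.natAbs_sq, Int.cast_pow]
    push_cast [zsmul_eq_mul]
    rw [mul_pow, this]; ring
  · intro φ
    have h1 := hy φ
    have h2 : (φ y)⁻¹ ≤ M := le_trans (hB φ) (le_trans (le_max_left _ _) hM)
    have h3 : 1 ≤ M * φ y := by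
      have := mul_le_mul_of_nonneg_right h2 h1.le
      rwa [inv_mul_cancel₀ h1.ne'] at this
    have h4 : (1 : ℝ) ≤ (D : ℝ) ^ 2 := by
      have : (1 : ℤ) ≤ D ^ 2 := by
        have := sq_pos_of_ne_zero hD
        omega
      exact_mod_cast this
    have e : φ (8 * (2 * (M : k) ^ 2 * D * (D • y)) - 5)
        = 16 * (M * (D : ℝ) ^ 2 * (M * φ y)) - 5 := by
      simp only [zsmul_eq_mul, map_sub, map_mul, map_pow, map_natCast, map_intCast, map_ofNat]
      ring
    rw [e]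
    have h5 : (1 : ℝ) ≤ M * (D : ℝ) ^ 2 := one_le_mul_of_one_le_of_one_le hM1 h4
    have h6 : (1 : ℝ) ≤ M * (D : ℝ) ^ 2 * (M * φ y) := one_le_mul_of_one_le_of_one_le h5 h3
    linarith

/-- four squares for totally positive elements that are three modulo eight -/
theorem four (hn : RowHN) {k : Type} [Field k] [NumberField k] (φ0 : k →+* ℝ) (r : k)
    (hr : IsIntegral ℤ r) (hpos : ∀ φ : k →+* ℝ, 0 < φ (8 * r - 5)) :
    ∃ a b c d : k, 8 * r - 5 = a ^ 2 + b ^ 2 + c ^ 2 + d ^ 2 := by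
  have hF : Fact (∀ z : k, z ^ 2 ≠ -(8 * r - 5) + 0 * z) := ⟨fun z hz => by
    have h1 := hpos φ0
    have h2 := congrArg φ0 hz
    rw [zero_mul, add_zero, map_neg, map_pow] at h2
    nlinarith [sq_nonneg (φ0 z)]⟩
  let E := QuadraticAlgebra k (-(8 * r - 5)) 0
  have : NumberField E := NumberField.of_module_finite k E
  let δ : E := QuadraticAlgebra.omega
  have hδ : δ ^ 2 = -(8 * algebraMap k E r - 5) := by
    have : δ * δ = algebraMap k E (-(8 * r - 5)) := by
      exact QuadraticAlgebra.omega_mul_omega_eq_mk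
    rw [sq, this]
    simp only [map_neg, map_sub, map_mul, map_ofNat]
  have hvoid : ∀ φ : E →+* ℝ, 0 < φ (-1) := fun φ => by
    exfalso
    have h1 := hpos (φ.comp (algebraMap k E))
    have h2 := congrArg φ hδ
    rw [map_neg] at h2
    simp only [map_sub, map_mul, map_ofNat, map_pow, RingHom.comp_apply] at h1 h2
    nlinarith [sq_nonneg (φ δ)]
  let r' : 𝓞 E := ⟨algebraMap k E r, hr.algebraMap⟩
  have hr' : algebraMap (𝓞 E) E r' = algebraMap k E r := rfl
  have hXe : ((δ - 1) / 2) ^ 2 + (δ - 1) / 2 + 1 = 2 * (1 - algebraMap k E r) := by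
    linear_combination (1 / 4 : E) * hδ
  have hXint : IsIntegral ℤ ((δ - 1) / 2) := by
    refine isIntegral_trans (A := 𝓞 E) _ ?_
    refine ⟨Polynomial.X ^ 2 + (Polynomial.X + Polynomial.C (2 * r' - 1)), ?_, ?_⟩
    · apply Polynomial.monic_X_pow_add
      rw [Polynomial.degree_X_add_C]; norm_num
    · simp only [Polynomial.eval₂_add, Polynomial.eval₂_pow, Polynomial.eval₂_X,
        Polynomial.eval₂_C]
      simp only [map_sub, map_mul, map_ofNat, map_one, hr']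
      linear_combination hXe
  let X : 𝓞 E := ⟨(δ - 1) / 2, hXint⟩
  have hX' : algebraMap (𝓞 E) E X = (δ - 1) / 2 := rfl
  have hX : X ^ 2 + X + 1 = 2 * (1 - r') := by
    apply IsFractionRing.injective (𝓞 E) E
    simp only [map_add, map_pow, map_sub, map_mul, map_ofNat, map_one, hr', hX']
    exact hXe
  obtain ⟨s, t, hst⟩ := hn E (-1) (-1) (by simp) (by simp) hvoid (fun w n => by
    obtain ⟨s, t, h⟩ := local_sq X (1 - r') hX w n
    refine ⟨algebraMap (𝓞 E) E s, algebraMap (𝓞 E) E t, ?_⟩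
    have e : (algebraMap (𝓞 E) E s) ^ 2 - -1 * (algebraMap (𝓞 E) E t) ^ 2 - -1
        = algebraMap (𝓞 E) E (s ^ 2 + t ^ 2 + 1) := by
      simp only [map_add, map_pow, map_one]; ring
    rw [e]
    have := (w.intValuation_le_pow_iff_mem _ n).2 h
    rwa [← w.valuation_of_algebraMap (K := E)] at this)
  have hre : (8 * r - 5) * (s.im ^ 2 + t.im ^ 2) = 1 + s.re ^ 2 + t.re ^ 2 := by
    have h1 : s * s + t * t + 1 = 0 := by linear_combination hst
    have h2 := congrArg QuadraticAlgebra.re h1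
    simp only [E, QuadraticAlgebra.re_add, QuadraticAlgebra.re_mul, QuadraticAlgebra.re_one,
      QuadraticAlgebra.re_zero] at h2
    linear_combination -h2
  have hq : s.im ^ 2 + t.im ^ 2 ≠ 0 := fun h => by
    rw [h, mul_zero] at hre
    have h2 := congrArg φ0 hre
    simp only [map_zero, map_add, map_one, map_pow] at h2
    nlinarith [sq_nonneg (φ0 s.re), sq_nonneg (φ0 t.re)]
  refine ⟨(s.im - s.re * t.im) / (s.im ^ 2 + t.im ^ 2), (t.im + s.re * s.im) / (s.im ^ 2 + t.im ^ 2),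
    (t.re * s.im) / (s.im ^ 2 + t.im ^ 2), (t.re * t.im) / (s.im ^ 2 + t.im ^ 2), ?_⟩
  field_simp
  linear_combination (s.im ^ 2 + t.im ^ 2) * hre

end SQ

theorem rowSQ : RowHN → RowSQ := by
  intro hn k _ _ y ⟨φ0⟩ hy
  obtain ⟨N, r, hN, hr, he, hpos⟩ := SQ.scale y hy
  obtain ⟨a, b, c, d, h⟩ := SQ.four hn φ0 r hr hpos
  have hN' : (N : k) ≠ 0 := by exact_mod_cast hN
  refine ⟨![1 / N, 2 / N, a / N, b / N, c / N, d / N], ?_⟩
  simp only [Fin.sum_univ_succ, Fin.sum_univ_zero, Matrix.cons_val_zero, Matrix.cons_val_succ]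
  field_simp
  linear_combination he + h

end Pool.Agent.MP_b4c6b8_lc.H22
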