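import Pool.Agent.MP_b4c6b8_lc.H22.Spec

namespace Pool.Agent.MP_b4c6b8_lc.H22

open NumberField

namespace WA

lemma real {F : IntermediateField ℚ Qb} (hF : TR F) (σ : F →+* ℂ) (x : F) : (σ x).im = 0 := by
  let : Algebra F ℂ := σ.toAlgebra
  have : Algebra.IsAlgebraic ℚ Qb := AlgebraicClosure.isAlgebraic ℚ
  have : Algebra.IsAlgebraic F Qb := Algebra.IsAlgebraic.tower_top (K := ℚ) F
  have e := (IsAlgClosed.lift (R := F) (M := ℂ) (S := Qb)).commutes x
  have h := hF x x.2 (IsAlgClosed.lift (R := F) (M := ℂ) (S := Qb)).toRingHom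
  exact (congrArg Complex.im e).symm.trans h

end WA

theorem rowWA : RowWA := by
  classical
  intro F _ hF t ε hε
  have : NumberField F := {}
  set c := (canonicalEmbedding.latticeBasis F).repr fun σ => (t σ : ℂ) with hc
  set g : (Module.Free.ChooseBasisIndex ℤ (𝓞 F) → ℝ) → (F →+* ℂ) → ℝ :=
    fun x σ => ∑ i, x i * (σ (integralBasis F i)).re with hg
  have e : g (fun i => (c i).re) = t := by
    funext σ
    have h := congrArg Complex.re (congrFun ((canonicalEmbedding.latticeBasis F).sum_repr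
      fun σ => (t σ : ℂ)) σ)
    simpa [hg, hc, WA.real hF] using h
  have cg : Continuous g := by rw [hg]; fun_prop
  obtain ⟨δ, d0, hδ⟩ := Metric.continuous_iff.1 cg (fun i => (c i).re) ε hε
  obtain ⟨q, hq⟩ := (DenseRange.piMap fun _ : Module.Free.ChooseBasisIndex ℤ (𝓞 F) =>
    (Rat.denseRange_cast (𝕜 := ℝ))).exists_dist_lt (fun i => (c i).re) d0
  refine ⟨∑ i, (q i : F) * integralBasis F i, fun σ => ?_⟩
  have h := (dist_le_pi_dist _ _ σ).trans_lt (hδ _ ((dist_comm _ _).trans_lt hq))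
  rw [e, Real.dist_eq] at h
  simpa [hg] using h

end Pool.Agent.MP_b4c6b8_lc.H22
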