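import Pool.Agent.MP_b4c6b8_lc.H22.Asm
import Pool.Agent.MP_b4c6b8_lc.H22.HN
import Pool.Agent.MP_b4c6b8_lc.H22.SQ
import Pool.Agent.MP_b4c6b8_lc.H22.POS
import Pool.Agent.MP_b4c6b8_lc.H22.WA
import Pool.Agent.MP_b4c6b8_lc.H22.PH
import Pool.Agent.MP_b4c6b8_lc.H22.SH

/-! All rows. -/

namespace Pool.Agent.MP_b4c6b8_lc.H22

theorem allPOS : RowPOS := rowPOS (rowSQ rowHN)

theorem allPH : RowPH := rowPH rowWA

theorem allSH : RowSH := rowSH rowWA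

end Pool.Agent.MP_b4c6b8_lc.H22
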