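import Pool.Agent.MP_b4c6b8_lc.H74.Defs

/-! Statements of the pieces: totally real algebraic numbers. -/

namespace Pool.Agent.MP_b4c6b8_lc.H22

open NumberField IsDedekindDomain

/-- the algebraic numbers -/
abbrev Qb : Type := AlgebraicClosure ℚ

/-- all conjugates have nonnegative real part -/
def TP (y : Qb) : Prop := ∀ σ : Qb →+* ℂ, 0 ≤ (σ y).re

/-- all conjugates of all elements are real -/
def TR (K : IntermediateField ℚ Qb) : Prop := ∀ x ∈ K, ∀ σ : Qb →+* ℂ, (σ x).im = 0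

/-- the norm theorem of Hasse for a quadratic extension in which no real place ramifies -/
def RowHN : Prop :=
  ∀ (E : Type) [Field E] [NumberField E] (a c : E), a ≠ 0 → c ≠ 0 → (∀ φ : E →+* ℝ, 0 < φ a) →
    (∀ (w : HeightOneSpectrum (𝓞 E)) (n : ℕ), ∃ s t : E,
      w.valuation E (s ^ 2 - a * t ^ 2 - c) ≤ WithZero.exp (-(n : ℤ))) →
    ∃ s t : E, s ^ 2 - a * t ^ 2 = c

/-- totally positive elements are sums of six squares -/
def RowSQ : Prop :=
  ∀ (k : Type) [Field k] [NumberField k] (y : k), Nonempty (k →+* ℝ) →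
    (∀ φ : k →+* ℝ, 0 < φ y) → ∃ x : Fin 6 → k, y = ∑ i, x i ^ 2

/-- the same inside a totally real field of any degree -/
def RowPOS : Prop :=
  ∀ K : IntermediateField ℚ Qb, TR K → ∀ y ∈ K,
    (TP y ↔ ∃ x : Fin 6 → Qb, (∀ i, x i ∈ K) ∧ y = ∑ i, x i ^ 2)

/-- weak approximation at the real places -/
def RowWA : Prop :=
  ∀ (F : IntermediateField ℚ Qb) [FiniteDimensional ℚ F], TR F →
    ∀ (t : (F →+* ℂ) → ℝ) (ε : ℝ), 0 < ε → ∃ y : F, ∀ σ : F →+* ℂ, |(σ y).re - t σ| < ε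

/-- boxes cut out arbitrarily large finite parts of an infinite set of integers -/
def RowPH : Prop :=
  ∀ K : IntermediateField ℚ Qb, TR K → ∀ S : Set Qb, S ⊆ K → S.Infinite →
    (∀ x ∈ S, IsIntegral ℤ x) → ∀ N : ℕ, ∃ a ∈ K, ∃ b ∈ K,
      {x | x ∈ S ∧ TP (x - a) ∧ TP (b - x)}.Finite ∧
        N ≤ {x | x ∈ S ∧ TP (x - a) ∧ TP (b - x)}.ncard

/-- the orderings shatter every finite set -/
def RowSH : Prop :=
  ∀ K : IntermediateField ℚ Qb, TR K → ¬ FiniteDimensional ℚ K → ∀ (U : Finset Qb) (T : Set Qb),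
    (∀ z ∈ U, z ∈ K) → ∃ p ∈ K, ∃ q ∈ K, ∀ z ∈ U, (TP ((z - p) * (z - q)) ↔ z ∈ T)

end Pool.Agent.MP_b4c6b8_lc.H22
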