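import Pool.Agent.MP_b4c6b8_lc.H22.Crit
import Pool.Agent.MP_b4c6b8_lc.H22.Spec

/-! Assembly: boxes give large finite sets, orderings code relations on them. -/

namespace Pool.Agent.MP_b4c6b8_lc.H22

open FirstOrder FirstOrder.Language FirstOrder.Ring H74

/-- a sum of six squares up to a square factor -/
def Pos {M : Type} [St M] (y : M) : Prop :=
  ∃ w a b c d e f, ¬ w = ze M ∧ mu y (mu w w) =
    ad (ad (ad (ad (ad (mu a a) (mu b b)) (mu c c)) (mu d d)) (mu e e)) (mu f f)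

theorem UD.pos {α : Type} {f : ℕ → ∀ (M : Type) [St M], (α → M) → M} (hf : UT α f) :
    UD α fun k M _ v => Pos (f k M v) := by
  simp only [Pos]
  iterate 7 apply UD.ex
  refine (UD.eq (UT.var _) UT.ze).not.and (UD.eq (UT.mu (hf.lift _) ?_) ?_) <;>
    repeat' first | exact UT.var _ | apply UT.ad | apply UT.mu

/-- the members of the family cut by a box -/
def Th {n : ℕ} (θ : Language.ring.BoundedFormula Empty (n + 1)) (M : Type) [St M]
    (p : Fin n ⊕ Fin 8 → M) (x : M) : Prop :=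
  θ.Realize Empty.elim (Fin.snoc (fun i => p (.inl i)) x) ∧
    Pos (ad (mu (p (.inr 0)) x) (ng (p (.inr 1)))) ∧ Pos (ad (p (.inr 2)) (ng (mu (p (.inr 0)) x)))

/-- one element for four -/
def four {M : Type} [St M] (s t w x y z : M) : M :=
  ad (ad w (mu s x)) (mu t (ad y (mu s z)))

/-- the coded relation -/
def De (n : ℕ) (M : Type) [St M] (p : Fin n ⊕ Fin 8 → M) (w x y z : M) : Prop :=
  Pos (mu (ad (mu (p (.inr 5)) (four (p (.inr 3)) (p (.inr 4)) w x y z)) (ng (p (.inr 6))))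
    (ad (mu (p (.inr 5)) (four (p (.inr 3)) (p (.inr 4)) w x y z)) (ng (p (.inr 7)))))

theorem ud_th {n : ℕ} (θ : Language.ring.BoundedFormula Empty (n + 1)) (γ : Type)
    (e : Fin n ⊕ Fin 8 → γ) (x : γ) : UD γ fun _ M _ v => Th θ M (fun b => v (e b)) (v x) := by
  refine UD.and (UD.fml θ (s := fun i _ M _ v =>
    (Fin.snoc (fun i => v (e (.inl i))) (v x) : Fin (n + 1) → M) i) fun i => ?_)
    (UD.and (UD.pos ?_) (UD.pos ?_))
  · refine Fin.lastCases ?_ (fun j => ?_) i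
    · simp only [Fin.snoc_last]
      exact UT.var _
    · simp only [Fin.snoc_castSucc]
      exact UT.var _
  all_goals repeat' first | exact UT.var _ | apply UT.ad | apply UT.mu | apply UT.ng

theorem ud_de (n : ℕ) (γ : Type) (e : Fin n ⊕ Fin 8 → γ) (w x y z : γ) :
    UD γ fun _ M _ v => De n M (fun b => v (e b)) (v w) (v x) (v y) (v z) := by
  refine UD.pos ?_
  simp only [four]
  repeat' first | exact UT.var _ | apply UT.ad | apply UT.mu | apply UT.ng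

theorem frac {R : Subring Qb} {x : Qb} (hx : x ∈ IntermediateField.adjoin ℚ (R : Set Qb)) :
    ∃ z ∈ R, z ≠ 0 ∧ z * x ∈ R := by
  let L : IntermediateField ℚ Qb := (Subfield.closure (R : Set Qb)).toIntermediateField
    fun q => SubfieldClass.ratCast_mem _ q
  have h : IntermediateField.adjoin ℚ (R : Set Qb) ≤ L :=
    IntermediateField.adjoin_le_iff.2 Subfield.subset_closure
  obtain ⟨y, hy, z, hz, rfl⟩ := Subfield.mem_closure_iff.1 (h hx)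
  rw [Subring.closure_eq] at hy hz
  by_cases h0 : z = 0
  · exact ⟨1, one_mem _, one_ne_zero, by simp [h0]⟩
  · exact ⟨z, hz, h0, by rwa [mul_div_cancel₀ _ h0]⟩

theorem fracs {R : Subring Qb} {n : ℕ} {x : Fin n → Qb}
    (hx : ∀ i, x i ∈ IntermediateField.adjoin ℚ (R : Set Qb)) :
    ∃ z ∈ R, z ≠ 0 ∧ ∀ i, z * x i ∈ R := by
  choose z h1 h2 h3 using fun i => frac (hx i)
  refine ⟨∏ i, z i, prod_mem fun i _ => h1 i, Finset.prod_ne_zero_iff.2 fun i _ => h2 i, fun i => ?_⟩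
  rw [← Finset.prod_erase_mul _ _ (Finset.mem_univ i), mul_assoc]
  exact mul_mem (prod_mem fun j _ => h1 j) (h3 i)

theorem tr_adjoin {R : Subring Qb} (h : ∀ x ∈ R, ∀ σ : Qb →+* ℂ, (σ x).im = 0) :
    TR (IntermediateField.adjoin ℚ (R : Set Qb)) := by
  intro x hx σ
  obtain ⟨z, h1, h2, h3⟩ := frac hx
  have e := h _ h3 σ
  rw [map_mul, Complex.mul_im, h z h1 σ, zero_mul, add_zero] at e
  refine (mul_eq_zero.1 e).resolve_left fun h0 => h2 ?_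
  exact (map_eq_zero σ).1 (Complex.ext h0 (h z h1 σ))

theorem tp_sq {w y : Qb} (hw : ∀ σ : Qb →+* ℂ, (σ w).im = 0) (h0 : w ≠ 0) :
    TP (w * w * y) ↔ TP y := by
  refine forall_congr' fun σ => ?_
  have h1 : (σ w).re ≠ 0 := fun h => h0 ((map_eq_zero σ).1 (Complex.ext h (hw σ)))
  simp only [map_mul, Complex.mul_re, Complex.mul_im, hw σ, mul_zero, zero_mul, sub_zero, add_zero]
  exact mul_nonneg_iff_of_pos_left (mul_self_pos.2 h1)

theorem pos_iff (hP : RowPOS) {R : Subring Qb} [CompatibleRing R]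
    (h : ∀ x ∈ R, ∀ σ : Qb →+* ℂ, (σ x).im = 0) (y : R) : Pos y ↔ TP y := by
  have sub : ∀ x ∈ R, x ∈ IntermediateField.adjoin ℚ (R : Set Qb) := fun x hx =>
    IntermediateField.subset_adjoin _ _ hx
  simp only [Pos, mu_eq, ad_eq, ze_eq]
  constructor
  · rintro ⟨w, a, b, c, d, e, f, h0, h1⟩
    rw [← tp_sq (h w w.2) (by simpa using h0),
      hP _ (tr_adjoin h) _ (sub _ (mul_mem (mul_mem w.2 w.2) y.2))]
    refine ⟨![a, b, c, d, e, f], fun i => sub _ (by fin_cases i <;> simp), ?_⟩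
    have := congrArg (fun t : R => (t : Qb)) h1
    push_cast at this
    simp only [Fin.sum_univ_six, Matrix.cons_val]
    linear_combination this
  · intro hy
    obtain ⟨x, x1, x2⟩ := (hP _ (tr_adjoin h) _ (sub _ y.2)).1 hy
    obtain ⟨z, z1, z2, z3⟩ := fracs x1
    refine ⟨⟨z, z1⟩, ⟨_, z3 0⟩, ⟨_, z3 1⟩, ⟨_, z3 2⟩, ⟨_, z3 3⟩, ⟨_, z3 4⟩, ⟨_, z3 5⟩,
      fun e => z2 (congrArg Subtype.val e), Subtype.ext ?_⟩
    push_cast
    rw [x2, Fin.sum_univ_six]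
    ring

theorem exists_pair {R : Type} [CommRing R] [IsDomain R] [CharZero R] {V : Set R}
    (hV : V.Finite) : ∃ t : R, ∀ x ∈ V, ∀ y ∈ V, ∀ x' ∈ V, ∀ y' ∈ V,
      x + t * y = x' + t * y' → x = x' ∧ y = y' := by
  have : Infinite R := Infinite.of_injective _ (Nat.cast_injective (R := R))
  have fin : (⋃ x ∈ V, ⋃ y ∈ V, ⋃ x' ∈ V, ⋃ y' ∈ V,
      {t : R | y ≠ y' ∧ x + t * y = x' + t * y'}).Finite := by
    refine hV.biUnion fun x _ => hV.biUnion fun y _ => hV.biUnion fun x' _ =>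
      hV.biUnion fun y' _ => Set.Subsingleton.finite fun s hs t ht => ?_
    refine mul_right_cancel₀ (sub_ne_zero.2 hs.1) ?_
    linear_combination hs.2 - ht.2
  obtain ⟨t, ht⟩ := fin.infinite_compl.nonempty
  refine ⟨t, fun x hx y hy x' hx' y' hy' e => ?_⟩
  have : y = y' := by
    by_contra hne
    exact ht (by simp only [Set.mem_iUnion]; exact ⟨x, hx, y, hy, x', hx', y', hy', hne, e⟩)
  exact ⟨by simpa [this] using e, this⟩

theorem de_code (hP : RowPOS) (hS : RowSH) {R : Subring Qb} [CompatibleRing R]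
    (h : ∀ x ∈ R, ∀ σ : Qb →+* ℂ, (σ x).im = 0)
    (hinf : ¬ FiniteDimensional ℚ (IntermediateField.adjoin ℚ (R : Set Qb))) {V : Set R}
    (hV : V.Finite) (T : R → R → R → R → Prop) : ∃ s t m p q : R, ∀ w ∈ V, ∀ x ∈ V, ∀ y ∈ V,
      ∀ z ∈ V, (Pos (mu (ad (mu m (four s t w x y z)) (ng p)) (ad (mu m (four s t w x y z)) (ng q)))
        ↔ T w x y z) := by
  obtain ⟨s, hs⟩ := exists_pair hV
  have h2 := hV.image2 (fun x y => x + s * y) hV
  obtain ⟨t, ht⟩ := exists_pair h2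
  have h4 := (h2.image2 (fun x y => x + t * y) h2).image (fun x : R => (x : Qb))
  obtain ⟨p, p1, q, q1, hpq⟩ := hS _ (tr_adjoin h) hinf h4.toFinset
    {u | ∃ w ∈ V, ∃ x ∈ V, ∃ y ∈ V, ∃ z ∈ V, T w x y z ∧ u = (w + s * x + t * (y + s * z) : R)}
    (fun z hz => by
      obtain ⟨r, -, rfl⟩ := h4.mem_toFinset.1 hz
      exact IntermediateField.subset_adjoin _ _ r.2)
  obtain ⟨m, m1, m2, m3⟩ := fracs (x := ![p, q]) (Fin.forall_fin_two.2 ⟨p1, q1⟩)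
  refine ⟨s, t, ⟨m, m1⟩, ⟨_, m3 0⟩, ⟨_, m3 1⟩, fun w hw x hx y hy z hz => ?_⟩
  have e := hpq (w + s * x + t * (y + s * z) : R) (h4.mem_toFinset.2
    ⟨_, Set.mem_image2_of_mem (Set.mem_image2_of_mem hw hx) (Set.mem_image2_of_mem hy hz), rfl⟩)
  rw [← tp_sq (h m m1) m2] at e
  rw [pos_iff hP h]
  refine Iff.trans (iff_of_eq (congrArg TP ?_)) (e.trans ?_)
  · simp only [four, mu_eq, ad_eq, ng_eq]
    push_cast
    ring
  · refine ⟨?_, fun hT => ⟨w, hw, x, hx, y, hy, z, hz, hT, rfl⟩⟩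
    rintro ⟨w', hw', x', hx', y', hy', z', hz', hT, e⟩
    obtain ⟨e1, e2⟩ := ht _ (Set.mem_image2_of_mem hw hx) _ (Set.mem_image2_of_mem hy hz) _
      (Set.mem_image2_of_mem hw' hx') _ (Set.mem_image2_of_mem hy' hz') (Subtype.ext e)
    obtain ⟨rfl, rfl⟩ := hs _ hw _ hx _ hw' _ hx' e1
    obtain ⟨rfl, rfl⟩ := hs _ hy _ hz _ hy' _ hz' e2
    exact hT

theorem box (hP : RowPOS) (hH : RowPH) {R : Subring Qb} [CompatibleRing R]
    (h : ∀ x ∈ R, ∀ σ : Qb →+* ℂ, (σ x).im = 0) (N : ℕ) {S : Set R} (h1 : (N : ℕ∞) ≤ S.encard)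
    (h2 : S.Finite ∨ ∀ x ∈ S, IsIntegral ℤ (x : Qb)) : ∃ m p q : R,
      {x | x ∈ S ∧ Pos (ad (mu m x) (ng p)) ∧ Pos (ad q (ng (mu m x)))}.Finite ∧
        N ≤ {x | x ∈ S ∧ Pos (ad (mu m x) (ng p)) ∧ Pos (ad q (ng (mu m x)))}.ncard := by
  by_cases hf : S.Finite
  · refine ⟨0, 0, 0, ?_⟩
    have e : {x | x ∈ S ∧ Pos (ad (mu 0 x) (ng 0)) ∧ Pos (ad 0 (ng (mu 0 x)))} = S := by
      ext x
      simp [pos_iff hP h, TP]
    rw [e]
    exact ⟨hf, by rw [← hf.cast_ncard_eq] at h1; exact_mod_cast h1⟩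
  obtain ⟨a, ha, b, hb, f1, f2⟩ := hH _ (tr_adjoin h) (Subtype.val '' S)
    (by rintro _ ⟨x, -, rfl⟩; exact IntermediateField.subset_adjoin _ _ x.2)
    (Set.Infinite.image Subtype.val_injective.injOn hf)
    (by rintro _ ⟨x, hx, rfl⟩; exact h2.resolve_left hf x hx) N
  obtain ⟨m, m1, m2, m3⟩ := fracs (x := ![a, b]) (Fin.forall_fin_two.2 ⟨ha, hb⟩)
  refine ⟨⟨m, m1⟩ * ⟨m, m1⟩, ⟨m, m1⟩ * ⟨_, m3 0⟩, ⟨m, m1⟩ * ⟨_, m3 1⟩, ?_⟩
  have e : {x | x ∈ Subtype.val '' S ∧ TP (x - a) ∧ TP (b - x)} = Subtype.val '' {x : R | x ∈ S ∧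
      Pos (ad (mu (⟨m, m1⟩ * ⟨m, m1⟩) x) (ng (⟨m, m1⟩ * ⟨_, m3 0⟩))) ∧
      Pos (ad (⟨m, m1⟩ * ⟨_, m3 1⟩) (ng (mu (⟨m, m1⟩ * ⟨m, m1⟩) x)))} := by
    have key : ∀ x : R, (Pos (ad (mu (⟨m, m1⟩ * ⟨m, m1⟩) x) (ng (⟨m, m1⟩ * ⟨_, m3 0⟩))) ∧
        Pos (ad (⟨m, m1⟩ * ⟨_, m3 1⟩) (ng (mu (⟨m, m1⟩ * ⟨m, m1⟩) x)))) ↔
        TP (x - a) ∧ TP (b - x) := fun x => by
      rw [pos_iff hP h, pos_iff hP h, ← tp_sq (y := x - a) (h m m1) m2,
        ← tp_sq (y := b - x) (h m m1) m2]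
      refine and_congr (iff_of_eq (congrArg TP ?_)) (iff_of_eq (congrArg TP ?_)) <;>
      · simp only [mu_eq, ad_eq, ng_eq]
        push_cast
        ring
    ext x
    constructor
    · rintro ⟨⟨x, hx, rfl⟩, h3⟩
      exact ⟨x, ⟨hx, (key x).2 h3⟩, rfl⟩
    · rintro ⟨x, ⟨hx, h3⟩, rfl⟩
      exact ⟨⟨x, hx, rfl⟩, (key x).1 h3⟩
  rw [e] at f1 f2
  rw [Set.ncard_image_of_injective _ Subtype.val_injective] at f2
  exact ⟨Set.Finite.of_finite_image f1 Subtype.val_injective.injOn, f2⟩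

theorem asm (hP : RowPOS) (hH : RowPH) (hS : RowSH) (R : Subring Qb) [CompatibleRing R]
    (h : ∀ x ∈ R, ∀ σ : Qb →+* ℂ, (σ x).im = 0)
    (hinf : ¬ FiniteDimensional ℚ (IntermediateField.adjoin ℚ (R : Set Qb))) (n : ℕ)
    (θ : Language.ring.BoundedFormula Empty (n + 1))
    (hθ : ∀ N : ℕ, ∃ a : Fin n → R,
      (N : ℕ∞) ≤ {x : R | θ.Realize Empty.elim (Fin.snoc a x)}.encard ∧
        ({x : R | θ.Realize Empty.elim (Fin.snoc a x)}.Finite ∨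
          ∀ x : R, θ.Realize Empty.elim (Fin.snoc a x) → IsIntegral ℤ (x : Qb)))
    (Φ : Language.ring.Theory) (hΦ : R ⊨ Φ) :
    ¬ ComputablePred fun k : ℕ => ∃ σ : Language.ring.Sentence, code σ = k ∧ Φ ⊨ᵇ σ := by
  refine crit (Th θ) (De n) (ud_th θ) (ud_de n) R
    (fun i j e => Nat.cast_injective (R := R) (by simpa using e)) (fun N => ?_) Φ hΦ
  obtain ⟨a, a1, a2⟩ := hθ N
  obtain ⟨m, p, q, b1, b2⟩ := box hP hH h N a1 a2
  refine ⟨_, b1, b2, fun V hV T => ?_⟩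
  obtain ⟨s, t, m', p', q', hd⟩ := de_code hP hS h hinf hV T
  exact ⟨Sum.elim a ![m, p, q, s, t, m', p', q'], fun x => Iff.rfl, hd⟩

end Pool.Agent.MP_b4c6b8_lc.H22
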