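import Mathlib

/-! Demand driven rules for the evaluation of a program, with finite models. -/

namespace Pool.Agent.MP_b4c6b8_lc.H22

open Turing.ToPartrec

/-- names of relations -/
inductive Tag
  | Z | S | C | H | N
  | D : Code → Tag
  | V : Code → Tag

/-- number of a program -/
def enc : Code → ℕ
  | .zero' => Nat.pair 0 0
  | .succ => Nat.pair 1 0
  | .tail => Nat.pair 2 0
  | .cons f g => Nat.pair 3 (Nat.pair (enc f) (enc g))
  | .comp f g => Nat.pair 4 (Nat.pair (enc f) (enc g))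
  | .case f g => Nat.pair 5 (Nat.pair (enc f) (enc g))
  | .fix f => Nat.pair 6 (enc f)

theorem enc_inj : Function.Injective enc := by
  intro c
  induction c with
  | zero' | succ | tail => intro d h; cases d <;> simp_all [enc]
  | cons f g ihf ihg | comp f g ihf ihg | case f g ihf ihg =>
    intro d h
    cases d <;> simp only [enc, Nat.pair_eq_pair] at h <;> try omega
    rw [ihf h.2.1, ihg h.2.2]
  | fix f ihf =>
    intro d h
    cases d <;> simp only [enc, Nat.pair_eq_pair] at h <;> try omega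
    rw [ihf h.2]

/-- number of a name -/
def tn : Tag → ℕ
  | .Z => 0
  | .S => 1
  | .C => 2
  | .H => 3
  | .N => 4
  | .D c => 2 * enc c + 5
  | .V c => 2 * enc c + 6

theorem tn_inj : Function.Injective tn := by
  intro a b h
  cases a <;> cases b <;> simp only [tn] at h <;> try omega
  all_goals first | rfl | exact congrArg _ (enc_inj (by omega))

variable {M : Type}

/-- rules for heads and tails -/
def Base (F : Tag → M → M → M → Prop) : Prop :=
  (∀ a t l, F .C a t l → F .H l a t) ∧ ∀ l a, F .N l l l → F .Z a a a → F .H l a l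

/-- rules for a program -/
def Gam (F : Tag → M → M → M → Prop) : Code → Prop
  | .zero' => ∀ l a, F (.D .zero') l l l → F .Z a a a → ∃ y, F .C a l y ∧ F (.V .zero') l y y
  | .succ => (∀ l a t, F (.D .succ) l l l → F .H l a t → ∃ y, F .S a y y) ∧
      ∀ l a t b n, F (.D .succ) l l l → F .H l a t → F .S a b b → F .N n n n →
        ∃ y, F .C b n y ∧ F (.V .succ) l y y
  | .tail => ∀ l a t, F (.D .tail) l l l → F .H l a t → F (.V .tail) l t t
  | .cons f g => Gam F f ∧ Gam F g ∧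
      (∀ l, F (.D (.cons f g)) l l l → F (.D f) l l l ∧ F (.D g) l l l) ∧
      ∀ l u s a t, F (.D (.cons f g)) l l l → F (.V f) l u u → F (.V g) l s s → F .H u a t →
        ∃ y, F .C a s y ∧ F (.V (.cons f g)) l y y
  | .comp f g => Gam F f ∧ Gam F g ∧ (∀ l, F (.D (.comp f g)) l l l → F (.D g) l l l) ∧
      ∀ l u, F (.D (.comp f g)) l l l → F (.V g) l u u → F (.D f) u u u ∧
        ∀ w, F (.V f) u w w → F (.V (.comp f g)) l w w
  | .case f g => Gam F f ∧ Gam F g ∧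
      (∀ l a t, F (.D (.case f g)) l l l → F .H l a t → F .Z a a a → F (.D f) t t t ∧
        ∀ w, F (.V f) t w w → F (.V (.case f g)) l w w) ∧
      ∀ l a t b, F (.D (.case f g)) l l l → F .H l a t → F .S b a a → ∃ y, F .C b t y ∧
        F (.D g) y y y ∧ ∀ w, F (.V g) y w w → F (.V (.case f g)) l w w
  | .fix f => Gam F f ∧ (∀ l, F (.D (.fix f)) l l l → F (.D f) l l l) ∧
      ∀ l u a t, F (.D (.fix f)) l l l → F (.V f) l u u → F .H u a t →
        (F .Z a a a → F (.V (.fix f)) l t t) ∧ ∀ b, F .S b a a → F (.D (.fix f)) t t t ∧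
          ∀ w, F (.V (.fix f)) t w w → F (.V (.fix f)) l w w

/-- names used by a program -/
def tags : Code → List Tag
  | .zero' => [.D .zero', .V .zero']
  | .succ => [.D .succ, .V .succ]
  | .tail => [.D .tail, .V .tail]
  | .cons f g => .D (.cons f g) :: .V (.cons f g) :: (tags f ++ tags g)
  | .comp f g => .D (.comp f g) :: .V (.comp f g) :: (tags f ++ tags g)
  | .case f g => .D (.case f g) :: .V (.case f g) :: (tags f ++ tags g)
  | .fix f => .D (.fix f) :: .V (.fix f) :: tags f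

theorem D_mem (c : Code) : Tag.D c ∈ tags c := by cases c <;> simp [tags]

theorem V_mem (c : Code) : Tag.V c ∈ tags c := by cases c <;> simp [tags]

theorem Gam.congr {F G : Tag → M → M → M → Prop} (hZ : F .Z = G .Z) (hS : F .S = G .S)
    (hC : F .C = G .C) (hH : F .H = G .H) (hN : F .N = G .N) (c : Code)
    (h : ∀ τ ∈ tags c, F τ = G τ) : Gam F c ↔ Gam G c := by
  have d := h _ (D_mem c)
  have v := h _ (V_mem c)
  induction c with
  | zero' | succ | tail => simp only [Gam, hZ, hS, hC, hH, hN, d, v]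
  | cons f g ihf ihg | comp f g ihf ihg | case f g ihf ihg =>
    have hf : ∀ τ ∈ tags f, F τ = G τ := fun τ hτ => h τ (by simp [tags, hτ])
    have hg : ∀ τ ∈ tags g, F τ = G τ := fun τ hτ => h τ (by simp [tags, hτ])
    simp only [Gam, hZ, hS, hC, hH, d, v, ihf hf (hf _ (D_mem f)) (hf _ (V_mem f)),
      ihg hg (hg _ (D_mem g)) (hg _ (V_mem g)), hf _ (D_mem f), hf _ (V_mem f), hg _ (D_mem g),
      hg _ (V_mem g)]
  | fix f ihf =>
    have hf : ∀ τ ∈ tags f, F τ = G τ := fun τ hτ => h τ (by simp [tags, hτ])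
    simp only [Gam, hZ, hS, hH, d, v, ihf hf (hf _ (D_mem f)) (hf _ (V_mem f)), hf _ (D_mem f),
      hf _ (V_mem f)]

/-- representatives of numbers -/
inductive RN (F : Tag → M → M → M → Prop) : M → ℕ → Prop
  | zero {a} : F .Z a a a → RN F a 0
  | succ {a b n} : RN F a n → F .S a b b → RN F b (n + 1)

/-- representatives of lists -/
inductive RL (F : Tag → M → M → M → Prop) : M → List ℕ → Prop
  | nil {l} : F .N l l l → RL F l []
  | cons {a t l n v} : RN F a n → RL F t v → F .C a t l → RL F l (n :: v)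

theorem RL.ht {F : Tag → M → M → M → Prop} (hb : Base F) {z : M} (hz : F .Z z z z) {x : M}
    {v : List ℕ} (h : RL F x v) : ∃ a t, F .H x a t ∧ RN F a v.headI ∧ RL F t v.tail := by
  cases h with
  | nil h => exact ⟨z, x, hb.2 _ _ h hz, .zero hz, .nil h⟩
  | cons h1 h2 h3 => exact ⟨_, _, hb.1 _ _ _ h3, h1, h2⟩

theorem mem_fix {f : Code} {v w : List ℕ} : w ∈ (Code.fix f).eval v ↔
    ∃ u ∈ f.eval v, (u.headI = 0 ∧ w = u.tail) ∨ (u.headI ≠ 0 ∧ w ∈ (Code.fix f).eval u.tail) := by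
  rw [Code.eval, PFun.mem_fix_iff]
  simp only [Part.mem_map_iff]
  constructor
  · rintro (⟨u, hu, e⟩ | ⟨a, ⟨u, hu, e⟩, h⟩) <;> refine ⟨u, hu, ?_⟩ <;> split_ifs at e with h0
    · exact Or.inl ⟨h0, (Sum.inl.inj e).symm⟩
    · exact Or.inr ⟨h0, (Sum.inr.inj e) ▸ h⟩
  · rintro ⟨u, hu, ⟨h0, rfl⟩ | ⟨h0, h⟩⟩
    · exact Or.inl ⟨u, hu, if_pos h0⟩
    · exact Or.inr ⟨_, ⟨u, hu, if_neg h0⟩, h⟩

theorem fix_ind {f : Code} {w : List ℕ} {P : List ℕ → Prop}
    (h0 : ∀ v, ∀ u ∈ f.eval v, u.headI = 0 → w = u.tail → P v)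
    (h1 : ∀ v, ∀ u ∈ f.eval v, u.headI ≠ 0 → w ∈ (Code.fix f).eval u.tail → P u.tail → P v)
    {v : List ℕ} (h : w ∈ (Code.fix f).eval v) : P v := by
  rw [Code.eval] at h
  refine PFun.fixInduction' h (fun a ha => ?_) fun a b hb ha ih => ?_
  · obtain ⟨u, hu, e⟩ := (Part.mem_map_iff _).1 ha
    split_ifs at e with h
    exact h0 a u hu h (Sum.inl.inj e).symm
  · obtain ⟨u, hu, e⟩ := (Part.mem_map_iff _).1 ha
    split_ifs at e with h
    obtain rfl := Sum.inr.inj e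
    exact h1 a u hu h hb ih

theorem mem_cons {f g : Code} {v w : List ℕ} : w ∈ (Code.cons f g).eval v ↔
    ∃ u ∈ f.eval v, ∃ s ∈ g.eval v, w = u.headI :: s := by
  simp [Code.eval]

theorem mem_comp {f g : Code} {v w : List ℕ} : w ∈ (Code.comp f g).eval v ↔
    ∃ u ∈ g.eval v, w ∈ f.eval u := by
  simp [Code.eval]

theorem case_zero {f g : Code} {v : List ℕ} (h : v.headI = 0) :
    (Code.case f g).eval v = f.eval v.tail := by
  simp only [Code.eval, h]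
  rfl

theorem case_succ {f g : Code} {v : List ℕ} {y : ℕ} (h : v.headI = y + 1) :
    (Code.case f g).eval v = g.eval (y :: v.tail) := by
  simp only [Code.eval, h]

/-- every model of the rules contains the true computation -/
theorem Gam.val {F : Tag → M → M → M → Prop} (hb : Base F) {z n : M} (hz : F .Z z z z)
    (hn : F .N n n n) (c : Code) (h : Gam F c) : ∀ v w, w ∈ c.eval v → ∀ x, RL F x v →
      F (.D c) x x x → ∃ y, RL F y w ∧ F (.V c) x y y := by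
  induction c with
  | zero' =>
    intro v w hw x hx hd
    obtain rfl : w = 0 :: v := Part.mem_some_iff.1 hw
    obtain ⟨y, h1, h2⟩ := h x z hd hz
    exact ⟨y, .cons (.zero hz) hx h1, h2⟩
  | succ =>
    intro v w hw x hx hd
    obtain rfl : w = [v.headI + 1] := Part.mem_some_iff.1 hw
    obtain ⟨a, t, h1, h2, -⟩ := hx.ht hb hz
    obtain ⟨b, h3⟩ := h.1 x a t hd h1
    obtain ⟨y, h4, h5⟩ := h.2 x a t b n hd h1 h3 hn
    exact ⟨y, .cons (.succ h2 h3) (.nil hn) h4, h5⟩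
  | tail =>
    intro v w hw x hx hd
    obtain rfl : w = v.tail := Part.mem_some_iff.1 hw
    obtain ⟨a, t, h1, -, h2⟩ := hx.ht hb hz
    exact ⟨t, h2, h x a t hd h1⟩
  | cons f g ihf ihg =>
    intro v w hw x hx hd
    obtain ⟨u, hu, s, hs, rfl⟩ := mem_cons.1 hw
    obtain ⟨hf, hg, r1, r2⟩ := h
    obtain ⟨y1, a1, b1⟩ := ihf hf v u hu x hx (r1 x hd).1
    obtain ⟨y2, a2, b2⟩ := ihg hg v s hs x hx (r1 x hd).2
    obtain ⟨a, t, h1, h2, -⟩ := a1.ht hb hz
    obtain ⟨y, h3, h4⟩ := r2 x y1 y2 a t hd b1 b2 h1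
    exact ⟨y, .cons h2 a2 h3, h4⟩
  | comp f g ihf ihg =>
    intro v w hw x hx hd
    obtain ⟨u, hu, hw⟩ := mem_comp.1 hw
    obtain ⟨hf, hg, r1, r2⟩ := h
    obtain ⟨y1, a1, b1⟩ := ihg hg v u hu x hx (r1 x hd)
    obtain ⟨y2, a2, b2⟩ := ihf hf u w hw y1 a1 (r2 x y1 hd b1).1
    exact ⟨y2, a2, (r2 x y1 hd b1).2 y2 b2⟩
  | case f g ihf ihg =>
    intro v w hw x hx hd
    obtain ⟨hf, hg, r1, r2⟩ := h
    obtain ⟨a, t, h1, h2, h3⟩ := hx.ht hb hz
    generalize e : v.headI = m at h2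
    cases h2 with
    | zero h2 =>
      rw [case_zero e] at hw
      obtain ⟨y, a1, b1⟩ := ihf hf _ w hw t h3 (r1 x a t hd h1 h2).1
      exact ⟨y, a1, (r1 x a t hd h1 h2).2 y b1⟩
    | succ h2 h4 =>
      rw [case_succ e] at hw
      obtain ⟨l, c1, c2, c3⟩ := r2 x a t _ hd h1 h4
      obtain ⟨y, a1, b1⟩ := ihg hg _ w hw l (.cons h2 h3 c1) c2
      exact ⟨y, a1, c3 y b1⟩
  | fix f ihf =>
    intro v w hw
    obtain ⟨hf, r1, r2⟩ := h
    refine fix_ind (P := fun v => ∀ x, RL F x v → F (.D (.fix f)) x x x →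
      ∃ y, RL F y w ∧ F (.V (.fix f)) x y y) ?_ ?_ hw
    · rintro v u hu h0 rfl x hx hd
      obtain ⟨y, a1, b1⟩ := ihf hf v u hu x hx (r1 x hd)
      obtain ⟨a, t, h1, h2, h3⟩ := a1.ht hb hz
      rw [h0] at h2
      cases h2 with
      | zero h2 => exact ⟨t, h3, (r2 x y a t hd b1 h1).1 h2⟩
    · intro v u hu h0 _ ih x hx hd
      obtain ⟨y, a1, b1⟩ := ihf hf v u hu x hx (r1 x hd)
      obtain ⟨a, t, h1, h2, h3⟩ := a1.ht hb hz
      generalize e : u.headI = m at h2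
      cases h2 with
      | zero h2 => exact absurd e h0
      | succ h2 h4 =>
        obtain ⟨c1, c2⟩ := (r2 x y a t hd b1 h1).2 _ h4
        obtain ⟨y', a2, b2⟩ := ih t h3 c1
        exact ⟨y', a2, c2 y' b2⟩

/-- the calls made directly by a call -/
def Sub (X : Set (Code × List ℕ)) : Code → List ℕ → Prop
  | .cons f g, v => (f, v) ∈ X ∧ (g, v) ∈ X
  | .comp f g, v => (g, v) ∈ X ∧ ∀ u ∈ g.eval v, (f, u) ∈ X
  | .case f g, v => (v.headI = 0 → (f, v.tail) ∈ X) ∧ ∀ y, v.headI = y + 1 → (g, y :: v.tail) ∈ X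
  | .fix f, v => (f, v) ∈ X ∧ ∀ u ∈ f.eval v, u.headI ≠ 0 → (Code.fix f, u.tail) ∈ X
  | _, _ => True

theorem Sub.mono {X Y : Set (Code × List ℕ)} (h : X ⊆ Y) {c : Code} {v : List ℕ}
    (hs : Sub X c v) : Sub Y c v := by
  cases c with
  | zero' | succ | tail => trivial
  | cons f g => exact ⟨h hs.1, h hs.2⟩
  | comp f g => exact ⟨h hs.1, fun u hu => h (hs.2 u hu)⟩
  | case f g => exact ⟨fun e => h (hs.1 e), fun y e => h (hs.2 y e)⟩
  | fix f => exact ⟨h hs.1, fun u hu e => h (hs.2 u hu e)⟩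

/-- a finite closed set of calls containing a given call -/
def Cl (c : Code) (v : List ℕ) : Prop :=
  ∃ X : Set (Code × List ℕ), X.Finite ∧ (c, v) ∈ X ∧ ∀ p ∈ X, Sub X p.1 p.2

theorem Cl.two {c f g : Code} {v a b : List ℕ} (h1 : Cl f a) (h2 : Cl g b)
    (h : ∀ X, (f, a) ∈ X → (g, b) ∈ X → Sub X c v) : Cl c v := by
  obtain ⟨X, x1, x2, x3⟩ := h1
  obtain ⟨Y, y1, y2, y3⟩ := h2
  refine ⟨insert (c, v) (X ∪ Y), (x1.union y1).insert _, Set.mem_insert _ _, ?_⟩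
  rintro p (rfl | hp | hp)
  · exact h _ (Or.inr (Or.inl x2)) (Or.inr (Or.inr y2))
  · exact (x3 p hp).mono fun _ h => Or.inr (Or.inl h)
  · exact (y3 p hp).mono fun _ h => Or.inr (Or.inr h)

theorem cl (c : Code) : ∀ v w, w ∈ c.eval v → Cl c v := by
  induction c with
  | zero' | succ | tail =>
    intro v w _
    exact ⟨{(_, v)}, Set.finite_singleton _, rfl, by rintro _ rfl; trivial⟩
  | cons f g ihf ihg =>
    intro v w hw
    obtain ⟨u, hu, s, hs, rfl⟩ := mem_cons.1 hw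
    exact (ihf v u hu).two (ihg v s hs) fun X h1 h2 => ⟨h1, h2⟩
  | comp f g ihf ihg =>
    intro v w hw
    obtain ⟨u, hu, hw⟩ := mem_comp.1 hw
    exact (ihg v u hu).two (ihf u w hw) fun X h1 h2 =>
      ⟨h1, fun u' hu' => Part.mem_unique hu hu' ▸ h2⟩
  | case f g ihf ihg =>
    intro v w hw
    rcases e : v.headI with _ | y
    · rw [case_zero e] at hw
      exact (ihf _ w hw).two (ihf _ w hw) fun X h1 _ => ⟨fun _ => h1, fun y h => by omega⟩
    · rw [case_succ e] at hw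
      exact (ihg _ w hw).two (ihg _ w hw) fun X h1 _ =>
        ⟨fun h => by omega, fun y' h => (show y = y' by omega) ▸ h1⟩
  | fix f ihf =>
    intro v w hw
    refine fix_ind (P := Cl (.fix f)) ?_ ?_ hw
    · intro v u hu h0 _
      exact (ihf v u hu).two (ihf v u hu) fun X h1 _ =>
        ⟨h1, fun u' hu' h => absurd (Part.mem_unique hu hu' ▸ h0) h⟩
    · intro v u hu h0 _ ih
      exact (ihf v u hu).two ih fun X h1 h2 => ⟨h1, fun u' hu' _ => Part.mem_unique hu hu' ▸ h2⟩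

/-- the true facts -/
def Tru (ι : ℕ → M) (μ : List ℕ → M) (X : Set (Code × List ℕ)) : Tag → M → M → M → Prop
  | .Z, a, _, _ => a = ι 0
  | .S, a, b, _ => ∃ n, a = ι n ∧ b = ι (n + 1)
  | .C, a, t, l => ∃ n v, a = ι n ∧ t = μ v ∧ l = μ (n :: v)
  | .H, l, a, t => ∃ v, l = μ v ∧ a = ι v.headI ∧ t = μ v.tail
  | .N, l, _, _ => l = μ []
  | .D c, l, _, _ => ∃ v, (c, v) ∈ X ∧ l = μ v
  | .V c, l, y, _ => ∃ v w, w ∈ c.eval v ∧ l = μ v ∧ y = μ w

/-- restriction to a subset -/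
def Res (U : M → Prop) (G : Tag → M → M → M → Prop) (τ : Tag) (x y z : M) : Prop :=
  U x ∧ U y ∧ U z ∧ G τ x y z

theorem base_tru (U : M → Prop) (ι : ℕ → M) (μ : List ℕ → M) (X : Set (Code × List ℕ)) :
    Base (Res U (Tru ι μ X)) := by
  constructor
  · rintro a t l ⟨h1, h2, h3, n, v, rfl, rfl, rfl⟩
    exact ⟨h3, h1, h2, n :: v, rfl, rfl, rfl⟩
  · rintro l a ⟨h1, -, -, rfl⟩ ⟨h2, -, -, rfl⟩
    exact ⟨h1, h2, h1, [], rfl, rfl, rfl⟩

theorem gam_tru {U : M → Prop} {ι : ℕ → M} {μ : List ℕ → M} (hι : Function.Injective ι)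
    (hμ : Function.Injective μ) {X : Set (Code × List ℕ)} (hX : ∀ p ∈ X, Sub X p.1 p.2)
    (h1 : ∀ p ∈ X, U (μ p.2)) (h2 : ∀ p ∈ X, ∀ w ∈ p.1.eval p.2, U (μ w) ∧ U (ι w.headI))
    (c : Code) : Gam (Res U (Tru ι μ X)) c := by
  induction c with
  | zero' =>
    rintro l a ⟨u1, -, -, v, hv, rfl⟩ ⟨u2, -, -, rfl⟩
    have := (h2 _ hv _ (Part.mem_some _)).1
    exact ⟨_, ⟨u2, u1, this, 0, v, rfl, rfl, rfl⟩, u1, this, this, v, _, Part.mem_some _, rfl, rfl⟩
  | succ =>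
    constructor
    · rintro l a t ⟨u1, -, -, v, hv, rfl⟩ ⟨-, u2, -, v', e, rfl, rfl⟩
      obtain rfl := hμ e
      have := (h2 _ hv _ (Part.mem_some _)).2
      exact ⟨_, u2, this, this, _, rfl, rfl⟩
    · rintro l a t b n ⟨u1, -, -, v, hv, rfl⟩ ⟨-, u2, -, v', e, rfl, rfl⟩ ⟨-, u3, -, m, e', rfl⟩
        ⟨u4, -, -, rfl⟩
      obtain rfl := hμ e
      obtain rfl := hι e'
      have := (h2 _ hv _ (Part.mem_some _)).1
      exact ⟨_, ⟨u3, u4, this, _, _, rfl, rfl, rfl⟩, u1, this, this, v, _, Part.mem_some _, rfl,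
        rfl⟩
  | tail =>
    rintro l a t ⟨u1, -, -, v, hv, rfl⟩ ⟨-, -, u2, v', e, rfl, rfl⟩
    obtain rfl := hμ e
    exact ⟨u1, u2, u2, v, _, Part.mem_some _, rfl, rfl⟩
  | cons f g ihf ihg =>
    refine ⟨ihf, ihg, ?_, ?_⟩
    · rintro l ⟨u1, -, -, v, hv, rfl⟩
      exact ⟨⟨u1, u1, u1, v, (hX _ hv).1, rfl⟩, u1, u1, u1, v, (hX _ hv).2, rfl⟩
    · rintro l u s a t ⟨u1, -, -, v, hv, rfl⟩ ⟨-, -, -, v1, w1, m1, e1, rfl⟩
        ⟨-, u2, -, v2, w2, m2, e2, rfl⟩ ⟨-, u3, -, v3, e3, rfl, rfl⟩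
      obtain rfl := hμ e1
      obtain rfl := hμ e2
      obtain rfl := hμ e3
      have m := mem_cons.2 ⟨_, m1, _, m2, rfl⟩
      have := (h2 _ hv _ m).1
      exact ⟨_, ⟨u3, u2, this, _, _, rfl, rfl, rfl⟩, u1, this, this, v, _, m, rfl, rfl⟩
  | comp f g ihf ihg =>
    refine ⟨ihf, ihg, ?_, ?_⟩
    · rintro l ⟨u1, -, -, v, hv, rfl⟩
      exact ⟨u1, u1, u1, v, (hX _ hv).1, rfl⟩
    · rintro l u ⟨u1, -, -, v, hv, rfl⟩ ⟨-, u2, -, v1, w1, m1, e1, rfl⟩
      obtain rfl := hμ e1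
      refine ⟨⟨u2, u2, u2, _, (hX _ hv).2 _ m1, rfl⟩, ?_⟩
      rintro w ⟨-, u3, -, v2, w2, m2, e2, rfl⟩
      obtain rfl := hμ e2
      exact ⟨u1, u3, u3, v, _, mem_comp.2 ⟨_, m1, m2⟩, rfl, rfl⟩
  | case f g ihf ihg =>
    refine ⟨ihf, ihg, ?_, ?_⟩
    · rintro l a t ⟨u1, -, -, v, hv, rfl⟩ ⟨-, -, u2, v1, e1, rfl, rfl⟩ ⟨-, -, -, e2⟩
      obtain rfl := hμ e1
      have e := hι e2
      refine ⟨⟨u2, u2, u2, _, (hX _ hv).1 e, rfl⟩, ?_⟩
      rintro w ⟨-, u3, -, v2, w2, m2, e2, rfl⟩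
      obtain rfl := hμ e2
      exact ⟨u1, u3, u3, v, _, by rwa [case_zero e], rfl, rfl⟩
    · rintro l a t b ⟨u1, -, -, v, hv, rfl⟩ ⟨-, -, u2, v1, e1, rfl, rfl⟩ ⟨u4, -, -, n, rfl, e2⟩
      obtain rfl := hμ e1
      have e := hι e2
      have m := (hX _ hv).2 n e
      have u5 := h1 _ m
      refine ⟨_, ⟨u4, u2, u5, _, _, rfl, rfl, rfl⟩, ⟨u5, u5, u5, _, m, rfl⟩, ?_⟩
      rintro w ⟨-, u3, -, v2, w2, m2, e2, rfl⟩
      obtain rfl := hμ e2
      exact ⟨u1, u3, u3, v, _, by rwa [case_succ e], rfl, rfl⟩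
  | fix f ihf =>
    refine ⟨ihf, ?_, ?_⟩
    · rintro l ⟨u1, -, -, v, hv, rfl⟩
      exact ⟨u1, u1, u1, v, (hX _ hv).1, rfl⟩
    · rintro l u a t ⟨u1, -, -, v, hv, rfl⟩ ⟨-, -, -, v1, w1, m1, e1, rfl⟩
        ⟨-, -, u2, v2, e2, rfl, rfl⟩
      obtain rfl := hμ e1
      obtain rfl := hμ e2
      constructor
      · rintro ⟨-, -, -, e⟩
        exact ⟨u1, u2, u2, v, _, mem_fix.2 ⟨_, m1, Or.inl ⟨hι e, rfl⟩⟩, rfl, rfl⟩
      · rintro b ⟨-, -, -, n, rfl, e⟩
        have e' : w1.headI ≠ 0 := by rw [hι e]; omega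
        refine ⟨⟨u2, u2, u2, _, (hX _ hv).2 _ m1 e', rfl⟩, ?_⟩
        rintro w ⟨-, u3, -, v2, w2, m2, e2, rfl⟩
        obtain rfl := hμ e2
        exact ⟨u1, u3, u3, v, _, mem_fix.2 ⟨_, m1, Or.inr ⟨e', m2⟩⟩, rfl, rfl⟩

/-- a universal program -/
theorem exists_univ : ∃ c : Code, ∀ g : ℕ → Bool, Computable g →
    ∃ k, (g k = true ∧ [1] ∈ c.eval [k]) ∨ (g k = false ∧ [0] ∈ c.eval [k]) := by
  have h : Partrec fun k : ℕ => (Denumerable.ofNat Nat.Partrec.Code k).eval k :=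
    Nat.Partrec.Code.eval_part.comp (Computable.ofNat _) Computable.id
  obtain ⟨c, hc⟩ := Code.exists_code (Nat.Partrec'.part_iff₁.2 h)
  refine ⟨c, fun g hg => ?_⟩
  have h1 : Computable fun k => cond (g k) 1 0 := hg.cond (Computable.const 1) (Computable.const 0)
  obtain ⟨d, hd⟩ := Nat.Partrec.Code.exists_code.1 (Partrec.nat_iff.1 h1)
  refine ⟨Encodable.encode d, ?_⟩
  have := hc ⟨[Encodable.encode d], rfl⟩
  simp only [List.Vector.head, Denumerable.ofNat_encode, hd] at this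
  rw [this]
  cases e : g (Encodable.encode d) <;> simp [e]

end Pool.Agent.MP_b4c6b8_lc.H22
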