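import Pool.Agent.MP_b4c6b8_lc.H22.UD
import Pool.Agent.MP_b4c6b8_lc.H22.Dem

/-! A criterion for hereditary undecidability: all finite structures are uniformly definable. -/

namespace Pool.Agent.MP_b4c6b8_lc.H22

open FirstOrder FirstOrder.Language FirstOrder.Ring H74 Turing.ToPartrec

theorem ud_base {β : Type} {F : ℕ → ∀ (M : Type) [St M], (β → M) → Tag → M → M → M → Prop}
    (hF : ∀ (γ : Type) (e : β → γ) (τ : Tag) (x y z : γ),
      UD γ fun k M _ v => F k M (fun b => v (e b)) τ (v x) (v y) (v z)) (γ : Type) (e : β → γ) :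
    UD γ fun k M _ v => Base (F k M fun b => v (e b)) := by
  simp only [Base]
  repeat' first | apply UD.all | apply UD.imp | apply UD.and | exact hF _ _ _ _ _ _

theorem ud_gam {β : Type} {F : ℕ → ∀ (M : Type) [St M], (β → M) → Tag → M → M → M → Prop}
    (hF : ∀ (γ : Type) (e : β → γ) (τ : Tag) (x y z : γ),
      UD γ fun k M _ v => F k M (fun b => v (e b)) τ (v x) (v y) (v z)) (γ : Type) (e : β → γ)
    (c : Code) : UD γ fun k M _ v => Gam (F k M fun b => v (e b)) c := by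
  induction c with
  | zero' | succ | tail =>
    simp only [Gam]
    repeat' first | apply UD.all | apply UD.imp | apply UD.and | apply UD.ex | exact hF _ _ _ _ _ _
  | cons f g ihf ihg | comp f g ihf ihg | case f g ihf ihg =>
    simp only [Gam]
    refine ihf.and (ihg.and ?_)
    repeat' first | apply UD.all | apply UD.imp | apply UD.and | apply UD.ex | exact hF _ _ _ _ _ _
  | fix f ihf =>
    simp only [Gam]
    refine ihf.and ?_
    repeat' first | apply UD.all | apply UD.imp | apply UD.and | apply UD.ex | exact hF _ _ _ _ _ _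

/-- the meaning of the sentence attached to an input -/
def Out {M : Type} [St M] (F : Tag → M → M → M → Prop) (c : Code) (k : ℕ) : Prop :=
  Base F → Gam F c → ∀ z n x q, z = ze M → q = num M k → F .Z z z z →
    (∀ y y', (∃ i < k, y = num M i) → y' = ad y (on M) → F .S y y' y') → F .N n n n →
    F .C q n x → F (.D c) x x x → ∃ y a t, F (.V c) x y y ∧ F .H y a t ∧ F .Z a a a

theorem ud_out {β : Type} {F : ℕ → ∀ (M : Type) [St M], (β → M) → Tag → M → M → M → Prop}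
    (hF : ∀ (γ : Type) (e : β → γ) (τ : Tag) (x y z : γ),
      UD γ fun k M _ v => F k M (fun b => v (e b)) τ (v x) (v y) (v z)) (c : Code) :
    UD β fun k M _ v => Out (F k M v) c k := by
  simp only [Out]
  refine (ud_base hF β id).imp ((ud_gam hF β id c).imp ?_)
  repeat' first
    | exact UD.lt _
    | apply UD.all | apply UD.imp | apply UD.and | apply UD.ex | apply UD.eq
    | exact hF _ _ _ _ _ _ | exact UT.var _ | exact UT.ze | exact UT.on | exact UT.numk
    | apply UT.ad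

theorem out_of_zero {M : Type} [St M] (F : Tag → M → M → M → Prop) {c : Code} {k : ℕ}
    (h : [0] ∈ c.eval [k]) : Out F c k := by
  rintro hb hg _ n x _ rfl rfl hz hs hn hc hd
  have h1 : ∀ i ≤ k, RN F (num M i) i := by
    intro i hi
    induction i with
    | zero => exact .zero hz
    | succ i ih => exact .succ (ih (by omega)) (hs _ _ ⟨i, by omega, rfl⟩ rfl)
  obtain ⟨y, h2, h3⟩ := Gam.val hb hz hn c hg _ _ h x (.cons (h1 k le_rfl) (.nil hn) hc) hd
  obtain ⟨a, t, h4, h5, -⟩ := h2.ht hb hz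
  cases h5 with
  | zero h5 => exact ⟨y, a, t, h3, h4, h5⟩

theorem exists_iota {M : Type} (f : ℕ → M) (hf : Function.Injective f) (k B : ℕ) (A : Set M)
    (hA : A.Finite) (hB : B + k + 2 ≤ A.ncard) : ∃ ι : ℕ → M, Function.Injective ι ∧
      (∀ i ≤ k, ι i = f i) ∧ ∀ i ≤ B, k < i → ι i ∈ A := by
  classical
  let W : Set M := f '' Set.Iic k
  have hW : W.Finite := (Set.finite_Iic k).image f
  have h1 : B + 1 ≤ (A \ W).ncard := by
    have := Set.le_ncard_sdiff W A hW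
    have h2 : W.ncard = k + 1 := by
      rw [Set.ncard_image_of_injective _ hf, ← Finset.coe_Iic, Set.ncard_coe_finset, Nat.card_Iic]
    omega
  obtain ⟨A', a1, a2⟩ := Set.exists_subset_card_eq h1
  have : Finite A' := (hA.subset (a1.trans Set.sdiff_subset)).to_subtype
  let g : Fin (B + 1) ≃ A' := (Finite.equivFinOfCardEq a2).symm
  have : Infinite M := Infinite.of_injective f hf
  let r := (hA.union hW).infinite_compl.natEmbedding
  have g1 : ∀ i, (g i : M) ∈ A ∧ (g i : M) ∉ W := fun i => a1 (g i).2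
  have r1 : ∀ i, (r i : M) ∉ A ∧ (r i : M) ∉ W := fun i => not_or.1 (r i).2
  have f1 : ∀ i ≤ k, f i ∈ W := fun i hi => ⟨i, hi, rfl⟩
  refine ⟨fun i => if i ≤ k then f i else if h : i < B + 1 then g ⟨i, h⟩ else r i, ?_,
    fun i hi => if_pos hi, fun i hi hk => ?_⟩
  · intro i j h
    simp only at h
    split_ifs at h with h1 h2 h3 h4 h5 h6 h7 h8
    · exact hf h
    · exact absurd (h ▸ f1 i h1) (g1 _).2
    · exact absurd (h ▸ f1 i h1) (r1 _).2
    · exact absurd (h ▸ f1 j h5) (g1 _).2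
    · exact congrArg Fin.val (g.injective (Subtype.ext h))
    · exact absurd (h ▸ (g1 _).1) (r1 _).1
    · exact absurd (h ▸ f1 j h7) (r1 _).2
    · exact absurd (h ▸ (g1 _).1) (r1 _).1
    · exact r.injective (Subtype.ext h)
  · simp only
    rw [if_neg (by omega), dif_pos (by omega)]
    exact (g1 _).1

theorem not_out {M : Type} [St M] (hnum : Function.Injective (num M)) {c : Code} {k : ℕ}
    (h : [1] ∈ c.eval [k]) : ∃ N : ℕ, ∀ A : Set M, A.Finite → N ≤ A.ncard →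
      ∃ G : Tag → M → M → M → Prop, ∀ F : Tag → M → M → M → Prop,
        (∀ τ ∈ [Tag.Z, .S, .C, .H, .N] ++ tags c, F τ =
          Res (fun x => x ∈ A ∨ (∃ i < k, x = num M i) ∨ x = num M k) G τ) → ¬ Out F c k := by
  obtain ⟨X, x1, x2, x3⟩ := cl c _ _ h
  have fin : {m : ℕ | m = Encodable.encode ([] : List ℕ) ∨ ∃ p ∈ X, m = Encodable.encode p.2 ∨
      ∃ w ∈ p.1.eval p.2, m = Encodable.encode w ∨ m = w.headI}.Finite := by
    refine (Set.finite_singleton (Encodable.encode ([] : List ℕ))).union (x1.biUnion (t := fun p => {m | m = Encodable.encode p.2 ∨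
      ∃ w ∈ p.1.eval p.2, m = Encodable.encode w ∨ m = w.headI}) fun p _ => ?_) |>.subset ?_
    · refine (Set.finite_singleton _).union ?_
      by_cases hp : ∃ w, w ∈ p.1.eval p.2
      · obtain ⟨w, hw⟩ := hp
        refine ((Set.finite_singleton w.headI).insert (Encodable.encode w)).subset ?_
        rintro m ⟨w', hw', e⟩
        rwa [Part.mem_unique hw' hw] at e
      · exact Set.finite_empty.subset fun m ⟨w, hw, _⟩ => hp ⟨w, hw⟩
    · rintro m (hm | ⟨p, hp, hm⟩)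
      · exact Or.inl hm
      · exact Or.inr (Set.mem_biUnion hp hm)
  obtain ⟨B, hB⟩ := fin.bddAbove
  refine ⟨B + k + 2, fun A hA hN => ?_⟩
  obtain ⟨ι, i1, i2, i3⟩ := exists_iota (num M) hnum k B A hA hN
  let μ : List ℕ → M := fun v => ι (Encodable.encode v)
  have m1 : Function.Injective μ := i1.comp Encodable.encode_injective
  refine ⟨Tru ι μ X, fun F hF ho => ?_⟩
  set U : M → Prop := fun x => x ∈ A ∨ (∃ i < k, x = num M i) ∨ x = num M k
  have u1 : ∀ i ≤ k, U (ι i) := fun i hi => by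
    rw [i2 i hi]
    rcases hi.lt_or_eq with hi | rfl
    · exact Or.inr (Or.inl ⟨i, hi, rfl⟩)
    · exact Or.inr (Or.inr rfl)
  have u2 : ∀ i ≤ B, U (ι i) := fun i hi =>
    (le_or_gt i k).elim (u1 i) fun h => Or.inl (i3 i hi h)
  have hZ := hF .Z (by simp)
  have hS := hF .S (by simp)
  have hC := hF .C (by simp)
  have hH := hF .H (by simp)
  have hN := hF .N (by simp)
  have ht : ∀ τ ∈ tags c, F τ = Res U (Tru ι μ X) τ := fun τ hτ =>
    hF τ (List.mem_append_right _ hτ)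
  have u3 : U (μ []) := u2 _ (hB (Or.inl rfl))
  have u4 : ∀ p ∈ X, U (μ p.2) := fun p hp => u2 _ (hB (Or.inr ⟨p, hp, Or.inl rfl⟩))
  have b : Base F := by
    simp only [Base, hZ, hC, hH, hN]
    exact base_tru U ι μ X
  have g : Gam F c := (Gam.congr hZ hS hC hH hN c ht).2 (gam_tru i1 m1 x3 u4 (fun p hp w hw =>
    ⟨u2 _ (hB (Or.inr ⟨p, hp, Or.inr ⟨w, hw, Or.inl rfl⟩⟩)),
      u2 _ (hB (Or.inr ⟨p, hp, Or.inr ⟨w, hw, Or.inr rfl⟩⟩))⟩) c)
  have u5 := u4 _ x2
  obtain ⟨y, a, t, h1, h2, h3⟩ := ho b g (ι 0) (μ []) (μ [k]) (ι k) (i2 0 k.zero_le)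
    (i2 k le_rfl) (by rw [hZ]; exact ⟨u1 0 k.zero_le, u1 0 k.zero_le, u1 0 k.zero_le, rfl⟩)
    (by
      rintro _ _ ⟨i, hi, rfl⟩ rfl
      rw [hS, show ad (num M i) (on M) = num M (i + 1) from rfl, ← i2 i hi.le, ← i2 (i + 1) hi]
      exact ⟨u1 i hi.le, u1 _ hi, u1 _ hi, i, rfl, rfl⟩)
    (by rw [hN]; exact ⟨u3, u3, u3, rfl⟩)
    (by rw [hC]; exact ⟨u1 k le_rfl, u3, u5, k, [], rfl, rfl, rfl⟩)
    (by rw [ht _ (D_mem c)]; exact ⟨u5, u5, u5, _, x2, rfl⟩)
  rw [ht _ (V_mem c)] at h1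
  rw [hH] at h2
  rw [hZ] at h3
  obtain ⟨-, -, -, v, w, hw, e1, rfl⟩ := h1
  obtain ⟨-, -, -, v', e2, rfl, -⟩ := h2
  obtain rfl := m1 e1
  obtain rfl := m1 e2
  obtain rfl := Part.mem_unique h hw
  exact absurd (i1 h3.2.2.2) (by simp)

theorem crit {β : Type} [Finite β] (Θ : ∀ (M : Type) [St M], (β → M) → M → Prop)
    (Δ : ∀ (M : Type) [St M], (β → M) → M → M → M → M → Prop)
    (hΘ : ∀ (γ : Type) (e : β → γ) (x : γ), UD γ fun _ M _ v => Θ M (fun b => v (e b)) (v x))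
    (hΔ : ∀ (γ : Type) (e : β → γ) (w x y z : γ),
      UD γ fun _ M _ v => Δ M (fun b => v (e b)) (v w) (v x) (v y) (v z))
    (R : Type) [St R] (hnum : Function.Injective (num R))
    (H : ∀ N : ℕ, ∃ A : Set R, A.Finite ∧ N ≤ A.ncard ∧ ∀ V : Set R, V.Finite →
      ∀ T : R → R → R → R → Prop, ∃ p : β → R, (∀ x, Θ R p x ↔ x ∈ A) ∧
        ∀ w ∈ V, ∀ x ∈ V, ∀ y ∈ V, ∀ z ∈ V, (Δ R p w x y z ↔ T w x y z))
    (Φ : Language.ring.Theory) (hΦ : R ⊨ Φ) :
    ¬ ComputablePred fun k : ℕ => ∃ σ : Language.ring.Sentence, code σ = k ∧ Φ ⊨ᵇ σ := by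
  intro hcomp
  obtain ⟨c, hc⟩ := exists_univ
  let F : ℕ → ∀ (M : Type) [St M], (β → M) → Tag → M → M → M → Prop := fun k M _ p =>
    Res (fun x => Θ M p x ∨ (∃ i < k, x = num M i) ∨ x = num M k)
      fun τ x y z => ∀ w, w = num M (tn τ) → Δ M p w x y z
  have hF : ∀ (γ : Type) (e : β → γ) (τ : Tag) (x y z : γ),
      UD γ fun k M _ v => F k M (fun b => v (e b)) τ (v x) (v y) (v z) := by
    intro γ e τ x y z
    have hU : ∀ x : γ, UD γ fun k M _ v => Θ M (fun b => v (e b)) (v x) ∨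
        (∃ i < k, v x = num M i) ∨ v x = num M k := fun x =>
      (hΘ γ e x).or ((UD.lt x).or (UD.eq (UT.var x) UT.numk))
    refine (hU x).and ((hU y).and ((hU z).and ?_))
    apply UD.all
    exact (UD.eq (UT.var none) (UT.num _)).imp (hΔ _ _ _ _ _ _)
  obtain ⟨σ, hp, hσ⟩ := (ud_out hF c).close
  obtain ⟨f, hf, e⟩ := ComputablePred.computable_iff.1 hcomp
  have key : ∀ k, f (code (σ k)) = true ↔ Φ ⊨ᵇ σ k := fun k => by
    rw [← congrFun e]
    exact ⟨fun ⟨τ, h1, h2⟩ => code_injective h1 ▸ h2, fun h => ⟨_, rfl, h⟩⟩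
  obtain ⟨k, ⟨h1, h2⟩ | ⟨h1, h2⟩⟩ := hc (fun k => f (code (σ k))) (hf.comp hp.to_comp)
  · have : Nonempty R := ⟨ze R⟩
    have h3 := (hσ k R).1 (((key k).1 h1).realize_sentence R)
    obtain ⟨N, hN⟩ := not_out hnum h2
    obtain ⟨A, a1, a2, a3⟩ := H N
    obtain ⟨G, hG⟩ := hN A a1 a2
    let L : List Tag := [Tag.Z, .S, .C, .H, .N] ++ tags c
    obtain ⟨p, p1, p2⟩ := a3 (A ∪ num R '' Set.Iic k ∪ (fun τ => num R (tn τ)) '' {τ | τ ∈ L})
      ((a1.union ((Set.finite_Iic k).image _)).union ((List.finite_toSet L).image _))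
      fun w x y z => ∃ τ, w = num R (tn τ) ∧ G τ x y z
    refine hG _ (fun τ hτ => ?_) (h3 p)
    funext x y z
    simp only [F, Res, p1, forall_eq]
    have hV : ∀ x, x ∈ A ∨ (∃ i < k, x = num R i) ∨ x = num R k →
        x ∈ A ∪ num R '' Set.Iic k ∪ (fun τ => num R (tn τ)) '' {τ | τ ∈ L} := by
      rintro x (h | ⟨i, hi, rfl⟩ | rfl)
      · exact Or.inl (Or.inl h)
      · exact Or.inl (Or.inr ⟨i, hi.le, rfl⟩)
      · exact Or.inl (Or.inr ⟨k, Set.self_mem_Iic, rfl⟩)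
    refine propext (and_congr_right fun hx => and_congr_right fun hy => and_congr_right fun hz => ?_)
    rw [p2 _ (Or.inr ⟨τ, hτ, rfl⟩) _ (hV x hx) _ (hV y hy) _ (hV z hz)]
    exact ⟨fun ⟨τ', e, h⟩ => tn_inj (hnum e) ▸ h, fun h => ⟨τ, rfl, h⟩⟩
  · have : Φ ⊨ᵇ σ k := Theory.models_sentence_iff.2 fun M =>
      (hσ k M).2 fun v => out_of_zero _ h2
    rw [(key k).2 this] at h1
    exact absurd h1 (by simp)

end Pool.Agent.MP_b4c6b8_lc.H22
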