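import Pool.Agent.MP_b4c6b8_lc.H22.Spec
import Pool.Agent.MP_542436_nt.H96.HN

/-! Norm indices for a cyclic extension of prime degree without ramified real places. -/

namespace Pool.Agent.MP_b4c6b8_lc.H22.HN

open NumberField IsDedekindDomain Pool.Agent.MP_db5b97_nt Pool.Agent.MP_db5b97_nt.H85

section
open Pool.Agent.MP_db5b97_nt.H79

theorem uq (p : ℕ) (hp : p.Prime) (k F G : Type) [Field k] [NumberField k] [Field F]
    [NumberField F] [Algebra k F] [Group G] [MulSemiringAction G F] [IsGaloisGroup G k F] (σ : G)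
    (l : ℕ) (E : AddSubgroup (Un F)) (hG : Nat.card G = p) (hσ : σ ≠ 1)
    (hi : Units.rank F + 1 = p * (Units.rank k + 1))
    (hE : ∀ x ∈ E, σ • x ∈ E) (hle : E ≤ Ru F l ⊓ (dv F l).ker)
    (hidx : E.relIndex (Ru F l ⊓ (dv F l).ker) ≠ 0) :
    p * hs E (Df σ) (Nm σ p) = hs E (Nm σ p) (Df σ) ∧ hs E (Nm σ p) (Df σ) ≠ 0 := by
  have hHQ := H25.rowHQ
  rw [units_eq] at hle hidx
  have : Fact p.Prime := ⟨hp⟩
  have : Finite G := Nat.finite_of_card_ne_zero (hG ▸ hp.ne_zero)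
  have hσp : σ ^ p = 1 := hG ▸ pow_card_eq_one'
  have hgen : ∀ s : G, ∃ n : ℕ, σ ^ n = s := fun s =>
    (mem_powers_iff_mem_zpowers.2 (mem_zpowers_of_prime_card hG hσ (g' := s)))
  have stab : ∀ B : AddSubgroup (Un F), (∀ x ∈ B, σ • x ∈ B) → ∀ s : G, ∀ x ∈ B, s • x ∈ B := by
    intro B hB s x hx
    obtain ⟨n, rfl⟩ := hgen s
    induction n with
    | zero => simpa using hx
    | succ n ih => rw [pow_succ', mul_smul]; exact hB _ ih
  have stf : ∀ B : AddSubgroup (Un F), (∀ x ∈ B, σ • x ∈ B) → ∀ x ∈ B, Df σ x ∈ B :=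
    fun B hB x hx => sub_mem (hB x hx) hx
  have stg : ∀ B : AddSubgroup (Un F), (∀ x ∈ B, σ • x ∈ B) → ∀ x ∈ B, Nm σ p x ∈ B :=
    fun B hB x hx => by
      rw [Nm_apply]
      exact sum_mem fun j _ => stab B hB _ x hx
  set n := Units.torsionOrder F with hn
  have hn0 : n ≠ 0 := Units.torsionOrder_ne_zero F
  set A : AddSubgroup (Un F) := E.map (nsmulAddMonoidHom n) with hA
  have hAE : A ≤ E := by
    rintro _ ⟨x, hx, rfl⟩
    exact nsmul_mem hx n
  have hAs : ∀ x ∈ A, σ • x ∈ A := by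
    rintro _ ⟨x, hx, rfl⟩
    exact ⟨σ • x, hE x hx, (smul_comm σ n x).symm⟩
  have hEf : Module.Finite ℤ E :=
    fin_of (io F) E.subtype (io_inj F) E.subtype_injective (by rwa [E.range_subtype])
  have hEfg : E.FG := (AddGroup.fg_iff_addSubgroup_fg E).1 (Module.Finite.iff_addGroup_fg.1 hEf)
  have hAi : A.relIndex E ≠ 0 :=
    (AddSubgroup.isFiniteRelIndex_map_nsmulAddMonoidHom_of_fg hEfg hn0).relIndex_ne_zero
  have hAU : A.relIndex (io F).range ≠ 0 := AddSubgroup.relIndex_ne_zero_trans hAi hidx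
  have : Module.Finite ℤ A :=
    fin_of (io F) A.subtype (io_inj F) A.subtype_injective
      (by rw [A.range_subtype]; exact hAE.trans hle)
  have : IsAddTorsionFree A := by
    refine ⟨fun m hm a b hab => ?_⟩
    obtain ⟨x, hx, hx'⟩ := (a - b).2
    have h0 : m • (a - b) = 0 := by
      rw [smul_sub]
      exact sub_eq_zero.2 hab
    have h1 : (m * n) • x = 0 := by
      rw [mul_smul]
      have := congrArg Subtype.val h0
      rw [AddSubgroup.coe_nsmul, ← hx'] at this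
      exact this
    have h2 := tors F (hle hx) (mul_ne_zero hm hn0) h1
    exact sub_eq_zero.1 (Subtype.ext (hx'.symm.trans h2))
  let : DistribMulAction G A := subAct A (stab A hAs)
  have cs : ∀ (s : G) (x : A), ((s • x : A) : Un F) = s • (x : Un F) := fun _ _ => rfl
  have : SMulCommClass G ℤ A := ⟨fun s m x => (DistribSMul.toAddMonoidHom A s).map_zsmul m x⟩
  have cf : ∀ x : A, ((Df σ x : A) : Un F) = Df σ (x : Un F) := fun _ => rfl
  have cg : ∀ x : A, ((Nm σ p x : A) : Un F) = Nm σ p (x : Un F) := fun x => by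
    rw [Nm_apply, Nm_apply, AddSubgroup.val_finsetSum]
    rfl
  set Φ : Submodule ℤ A := (Df σ : A →+ A).ker.toIntSubmodule with hΦ
  have hΦm : ∀ x, x ∈ Φ ↔ σ • x = x := fun x => sub_eq_zero
  obtain ⟨-, q2, q3⟩ := hHQ p hp ℤ A G σ Φ
    (by rw [Nat.card_congr (Int.quotientSpanNatEquivZMod p).toEquiv, Nat.card_zmod])
    (fun x => by rw [hσp, one_smul]) hΦm
  rw [hc_sub A _ _ _ _ cg cf] at q2 q3
  rw [hc_sub A _ _ _ _ cf cg] at q3
  have r1 : Module.finrank ℤ A = Units.rank F := by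
    rw [← Units.finrank_eq]
    exact rank_of (io F) A.subtype (io_inj F) A.subtype_injective
      (by rw [A.range_subtype]; exact hAE.trans hle) (by rwa [A.range_subtype])
  have r2 : Module.finrank ℤ Φ = Units.rank k := by
    rw [← Units.finrank_eq]
    have hinc : Function.Injective (Un.inc k F) := fun x y h =>
      Un.ext ((algebraMap k F).injective (by rw [← Un.val_inc, ← Un.val_inc, h]))
    have hr : (A.subtype.comp Φ.subtype.toAddMonoidHom).range = A ⊓ (Df σ).ker := by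
      ext y
      constructor
      · rintro ⟨x, rfl⟩
        exact ⟨x.1.2, (cf x.1).symm.trans (congrArg Subtype.val x.2)⟩
      · rintro ⟨h1, h2⟩
        exact ⟨⟨⟨y, h1⟩, Subtype.ext h2⟩, rfl⟩
    have hk : ((Un.inc k F).comp (io k)).range = (io F).range ⊓ (Df σ).ker := by
      ext y
      constructor
      · rintro ⟨u, rfl⟩
        obtain ⟨h1, h2⟩ := (mem_io k).1 ⟨u, rfl⟩
        refine ⟨(mem_io F).2 ⟨h1.algebraMap, ?_⟩, sub_eq_zero.2 (Un.ext ?_)⟩
        · show IsIntegral ℤ (algebraMap k F (io k u).val)⁻¹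
          rw [← map_inv₀]
          exact h2.algebraMap
        · exact smul_algebraMap σ _
      · rintro ⟨h1, h2⟩
        have h3 : σ • y = y := sub_eq_zero.1 h2
        have h4 : ∀ s : G, s • y.val = y.val := by
          intro s
          obtain ⟨m, rfl⟩ := hgen s
          induction m with
          | zero => simp
          | succ m ih => rw [pow_succ, mul_smul, ← Un.val_smul σ, h3, ih]
        obtain ⟨z, hz⟩ := Algebra.IsInvariant.isInvariant (A := k) (G := G) y.val h4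
        have hz0 : z ≠ 0 := fun h => y.val_ne (by rw [← hz, h, map_zero])
        obtain ⟨a1, a2⟩ := (mem_io F).1 h1
        rw [← hz] at a1 a2
        rw [← map_inv₀] at a2
        obtain ⟨u, hu⟩ := (mem_io k (x := Un.mk z hz0)).2
          ⟨(isIntegral_algebraMap_iff (algebraMap k F).injective).1 a1,
            (isIntegral_algebraMap_iff (algebraMap k F).injective).1 a2⟩
        refine ⟨u, Un.ext ?_⟩
        show algebraMap k F (io k u).val = y.val
        rw [hu, ← hz]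
        rfl
    refine rank_of ((Un.inc k F).comp (io k)) (A.subtype.comp Φ.subtype.toAddMonoidHom)
      (hinc.comp (io_inj k)) (A.subtype_injective.comp Φ.subtype_injective) ?_ ?_
    · rw [hr, hk]
      exact inf_le_inf_right _ (hAE.trans hle)
    · rw [hr, hk, ← AddSubgroup.inf_relIndex_right, inf_assoc, inf_comm (Df σ).ker, inf_assoc,
        inf_idem, AddSubgroup.inf_relIndex_right]
      exact fun h => hAU (AddSubgroup.relIndex_eq_zero_of_le_right inf_le_left h)
  have d3 : Units.rank F = p * Units.rank k + (p - 1) := by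
    have := hp.one_le
    zify [this] at hi ⊢
    linarith
  rw [r1, r2, d3, pow_add] at q3
  have q4 : (p * hs A (Df σ) (Nm σ p)) ^ (p - 1) = hs A (Nm σ p) (Df σ) ^ (p - 1) := by
    refine Nat.eq_of_mul_eq_mul_right (pow_pos hp.pos (p * Units.rank k)) ?_
    rw [← q3]
    ring
  have q5 := Nat.pow_left_injective (Nat.sub_ne_zero_of_lt hp.one_lt) q4
  exact hs_up p A E hAE hAi _ _ (Df_Nm σ p hσp) (Nm_Df σ p hσp) (stf A hAs) (stg A hAs)
    (stf E hE) (stg E hE) q5 q2

end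

open Pool.Agent.MP_db5b97_nt.H74

theorem lay (p : ℕ) (hp : p.Prime) (k F G : Type) [Field k] [NumberField k] [Field F]
    [NumberField F] [Algebra k F] [Group G] [MulSemiringAction G F] [IsGaloisGroup G k F] (σ : G)
    (l : ℕ) (hG : Nat.card G = p) (hσ : σ ≠ 1) (hl : 2 ≤ l)
    (hi : Units.rank F + 1 = p * (Units.rank k + 1))
    (hun : Unr k F l) : ∃ M0, ∀ M, M0 ≤ M →
      (∀ x ∈ Ray k l M, dv k l x ∈ (nrD F l k).range → x ∈ (Un.nrm k F).range) ∧
      ((Un.nrm k F).range ⊔ Ray k l M).index = hc (A := Pl F l →₀ ℤ) (Df σ) (Nm σ p) := by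
  have h1 := H10.rowNT1
  have h2 := rowNT2
  have hLA := H7.rowLA
  have hU := H47.rowU
  have hSI := H19.rowSI H72.rowZ (H72.rowRC H36.rowAL)
  have l0 : l ≠ 0 := by omega
  have : Finite G := Nat.finite_of_card_ne_zero (hG ▸ hp.ne_zero)
  have : FaithfulSMul G F := IsGaloisGroup.faithful k
  have hs : σ ^ p = 1 := hG ▸ pow_card_eq_one'
  have hn : σ ∈ Subgroup.normalizer ((⊥ : Subgroup G) : Set G) :=
    Subgroup.le_normalizer_of_normal (K := ⊤) trivial
  have hb : σ ^ p ∈ (⊥ : Subgroup G) := hs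
  obtain ⟨U, u1, u2, ⟨M0, u3⟩, u4, u5⟩ := hU p hp k F G σ l hG hσ hl
  have ea : ∀ (s : G) x, dv F l (s • x) = s • dv F l x := fun s x => by
    ext w
    rw [Finsupp.comapSMul_apply, dv_apply, dv_apply, show (s⁻¹ • w).1 = s⁻¹ • w.1 from rfl,
      ← h2.ord_smul F G s (s⁻¹ • w.1) x, smul_inv_smul]
  have eb : ∀ (s : G) x, dvl F l (s • x) = s • dvl F l x := fun s x => by
    ext w
    rw [Finsupp.comapSMul_apply, dvl_apply, dvl_apply, show (s⁻¹ • w).1 = s⁻¹ • w.1 from rfl,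
      ← h2.ord_smul F G s (s⁻¹ • w.1) x, smul_inv_smul]
  have kb : (dvl F l).ker = Ru F l := by
    ext x
    rw [mem_Ru_iff_ord, AddMonoidHom.mem_ker, Finsupp.ext_iff]
    rfl
  have kA : (Df σ).ker = (Un.inc k F).range := by
    ext x; rw [h2.inc_range k F G, fix_iff hp hG hσ]
  have kI : (Df σ).ker = (con k F l).range := by
    ext x; rw [h2.con_range k F G, fix_iff hp hG hσ]
  have iA : Function.Injective (Un.inc k F) := fun x y h =>
    Un.ext ((algebraMap k F).injective (congrArg Un.val h))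
  have iI : Function.Injective (con k F l) := fun x y h => by
    ext v
    obtain ⟨w, rfl⟩ := (h1.und_surj k F l).2 v
    exact DFunLike.congr_fun h w
  have di : ∀ x, dv F l (Un.inc k F x) = con k F l (dv k l x) := fun x => by
    ext w
    rw [dv_apply, h2.ord_inc, hun w, Nat.cast_one, one_mul]
    rfl
  have nA := h2.inc_nrm k F G σ p hp hG hσ
  have nI : (con k F l).comp (nrD F l k) = Nm σ p := hom_ext fun x => by
    rw [AddMonoidHom.comp_apply, ← h1.dv_nrm, ← di, nA, map_Nm _ ea]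
  have rA : (Nm σ p).range = (Un.nrm k F).range.map (Un.inc k F) := by
    rw [AddMonoidHom.map_range]
    exact congrArg _ (AddMonoidHom.ext nA).symm
  have rI : (Nm σ p).range = (nrD F l k).range.map (con k F l) := by
    rw [AddMonoidHom.map_range, nI]
  have hrel : U.relIndex (Ru F l) ≠ 0 := fun h =>
    Ray_relIndex_ne l0 M0 (AddSubgroup.relIndex_eq_zero_of_le_left u3 h)
  obtain ⟨q1, q2⟩ := uq p hp k F G σ l (U ⊓ (dv F l).ker) hG hσ hi
    (fun x hx => ⟨u1 x hx.1, AddMonoidHom.mem_ker.2 (by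
      rw [ea, AddMonoidHom.mem_ker.1 hx.2, smul_zero])⟩)
    (inf_le_inf_right _ u2) (AddSubgroup.relIndex_inter_ne_zero hrel _)
  refine ⟨M0, fun M hM => ?_⟩
  have eI : ((Nm σ p).range ⊔ ((Ray k l M).map (Un.inc k F)).map (dv F l)).relIndex (Df σ).ker =
      ((nrD F l k).range ⊔ (Ray k l M).map (dv k l)).index := by
    rw [← idx_map iI, AddSubgroup.map_sup, ← rI, kI, AddSubgroup.map_map, AddSubgroup.map_map]
    congr 3
    exact AddMonoidHom.ext di
  have eA : ((Nm σ p).range ⊔ (Ray k l M).map (Un.inc k F)).relIndex (Df σ).ker =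
      ((Un.nrm k F).range ⊔ Ray k l M).index := by
    rw [← idx_map iA, AddSubgroup.map_sup, ← rA, kA]
  have i0 : ((nrD F l k).range ⊔ (Ray k l M).map (dv k l)).index ≠ 0 :=
    ne_zero_of_dvd_ne_zero (Ray_index_ne l0 M) (AddSubgroup.index_dvd_of_le le_sup_right)
  have i1 : ((nrD F l k).range ⊔ (Ray k l M).map (dv k l)).index ≤ p := by
    have : Finite (Dv k l ⧸ ((nrD F l k).range ⊔ (Ray k l M).map (dv k l))) :=
      Nat.finite_of_card_ne_zero i0
    rw [← hG, IsGaloisGroup.card_eq_finrank G k F]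
    exact hSI k F l M _ (QuotientAddGroup.mk' _) hl (QuotientAddGroup.mk'_surjective _)
      (fun x hx => (QuotientAddGroup.eq_zero_iff _).2
        (AddSubgroup.mem_sup_right ⟨x, hx, rfl⟩))
      fun D => (QuotientAddGroup.eq_zero_iff _).2 (AddSubgroup.mem_sup_left ⟨D, rfl⟩)
  obtain ⟨c1, c2, c3⟩ := hLA p (Un F) (Dv F l) (Pl F l →₀ ℤ) (Df σ) (Nm σ p) (Df σ) (Nm σ p)
    (Df σ) (Nm σ p) (dv F l) (dvl F l) U ((Ray k l M).map (Un.inc k F))
    (Df_Nm hs) (Nm_Df hs) (Df_Nm hs) (Nm_Df hs) (map_Df _ ea) (map_Nm _ ea) (map_Df _ eb)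
    (map_Nm _ eb) (h1.dvl_surj F l l0) (fun x hx => sub_mem (u1 x hx) hx)
    (fun x hx => Nm_mem u1 hx) (u2.trans kb.ge) (by rw [kb]; exact hrel)
    (ne_zero_of_dvd_ne_zero (Ray_index_ne l0 M0)
      (AddSubgroup.index_dvd_of_le (AddSubgroup.map_mono u3)))
    (ker_le_range (h2.h1u F G p ⊥ σ hp hn hb hσ))
    (ker_le_range (h2.h1p _ G p ⊥ σ hp.pos hn hb)) (ker_le_range (h2.h1p _ G p ⊥ σ hp.pos hn hb))
    (fun x hx => (u4 x hx.1 hx.2).imp fun y hy => ⟨hy.1, hy.2.symm⟩)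
    (by
      rintro _ ⟨x, hx, rfl⟩
      exact ⟨u3 (Ray_anti hM ((h2.inc_Ray k F l M x).2 hx)), kA.ge ⟨x, rfl⟩⟩)
    (fun x hx => by
      obtain ⟨y, -, hy⟩ := u5 M x hx.1 (sub_eq_zero.1 hx.2)
      obtain ⟨z, hz⟩ := kA.le (sub_mem hx.2 (Df_Nm hs y))
      rw [← add_sub_cancel (Nm σ p y) x]
      exact AddSubgroup.add_mem_sup ⟨y, rfl⟩ ⟨z, (h2.inc_Ray k F l M z).1 (by rw [hz]; exact hy), hz⟩)
    q1 q2 (eI.trans_ne i0) (eI.trans_le i1)
  refine ⟨fun x hx ⟨D, hD⟩ => ?_, eA.symm.trans c3⟩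
  obtain ⟨y, hy⟩ := c1 _ ⟨x, hx, rfl⟩ ⟨D, by rw [di, ← hD, ← nI]; rfl⟩
  exact ⟨y, iA ((nA y).trans hy)⟩

end Pool.Agent.MP_b4c6b8_lc.H22.HN
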