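import Pool.Agent.MP_b4c6b8_lc.H74.Defs

/-! Primitive recursive sequences of formulas, described by their meaning. -/

namespace Pool.Agent.MP_b4c6b8_lc.H22

open FirstOrder FirstOrder.Language FirstOrder.Ring H74

/-- structures for the language of rings -/
abbrev St (M : Type) : Type := Language.ring.Structure M

section Ops

variable {M : Type} [St M]

/-- sum -/
def ad (x y : M) : M := Structure.funMap (L := Language.ring) addFunc ![x, y]
/-- product -/
def mu (x y : M) : M := Structure.funMap (L := Language.ring) mulFunc ![x, y]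
/-- opposite -/
def ng (x : M) : M := Structure.funMap (L := Language.ring) negFunc ![x]
variable (M) in
/-- zero -/
def ze : M := Structure.funMap (L := Language.ring) zeroFunc ![]
variable (M) in
/-- one -/
def on : M := Structure.funMap (L := Language.ring) oneFunc ![]
variable (M) in
/-- numerals -/
def num : ℕ → M
  | 0 => ze M
  | k + 1 => ad (num k) (on M)

end Ops

section Ring

variable {R : Type} [CommRing R] [CompatibleRing R]

@[simp] theorem ad_eq (x y : R) : ad x y = x + y := CompatibleRing.funMap_add _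
@[simp] theorem mu_eq (x y : R) : mu x y = x * y := CompatibleRing.funMap_mul _
@[simp] theorem ng_eq (x : R) : ng x = -x := CompatibleRing.funMap_neg _
@[simp] theorem ze_eq : ze R = 0 := CompatibleRing.funMap_zero _
@[simp] theorem on_eq : on R = 1 := CompatibleRing.funMap_one _
@[simp] theorem num_eq (k : ℕ) : num R k = k := by
  induction k with
  | zero => simp [num]
  | succ k ih => simp [num, ih]

end Ring

/-- sequences of functions given by terms -/
def UT (α : Type) (f : ℕ → ∀ (M : Type) [St M], (α → M) → M) : Prop :=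
  ∀ (n : ℕ) (e : α → Fin n), ∃ t : ℕ → Language.ring.Term (Empty ⊕ Fin n),
    (Primrec fun k => termCode (t k)) ∧ ∀ (k : ℕ) (M : Type) [St M] (v : Fin n → M),
      (t k).realize (Sum.elim Empty.elim v) = f k M fun a => v (e a)

/-- sequences of predicates given by formulas -/
def UD (α : Type) (P : ℕ → ∀ (M : Type) [St M], (α → M) → Prop) : Prop :=
  ∀ (n : ℕ) (e : α → Fin n), ∃ φ : ℕ → Language.ring.BoundedFormula Empty n,
    (Primrec fun k => code (φ k)) ∧ ∀ (k : ℕ) (M : Type) [St M] (v : Fin n → M),
      (φ k).Realize Empty.elim v ↔ P k M fun a => v (e a)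

theorem pr2 (c : ℕ) {f g : ℕ → ℕ} (hf : Primrec f) (hg : Primrec g) :
    Primrec fun k => Nat.pair c (Nat.pair (f k) (g k)) :=
  Primrec₂.natPair.comp (Primrec.const c) (Primrec₂.natPair.comp hf hg)

variable {α β : Type}

namespace UT

variable {f g : ℕ → ∀ (M : Type) [St M], (α → M) → M}

theorem var (a : α) : UT α fun _ _ _ v => v a := fun _ e =>
  ⟨fun _ => .var (Sum.inr (e a)), Primrec.const _, fun _ _ _ _ => rfl⟩

theorem of_eq (hf : UT α f) (h : ∀ (k : ℕ) (M : Type) [St M] v, f k M v = g k M v) : UT α g :=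
  fun n e => (hf n e).imp fun _ ht => ⟨ht.1, fun k M _ v => (ht.2 k M v).trans (h k M _)⟩

theorem func {l : ℕ} (F : Language.ring.Functions l)
    {s : Fin l → ℕ → ∀ (M : Type) [St M], (α → M) → M} (hs : ∀ i, UT α (s i)) :
    UT α fun k M _ v => Structure.funMap (L := Language.ring) F fun i => s i k M v := by
  intro n e
  choose t h1 h2 using fun i => hs i n e
  refine ⟨fun k => .func F fun i => t i k, ?_, fun k M _ v => by simp only [Term.realize, h2]⟩
  cases F
  · exact pr2 4 (h1 0) (h1 1)
  · exact pr2 5 (h1 0) (h1 1)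
  · exact Primrec₂.natPair.comp (Primrec.const 3) (h1 0)
  · exact Primrec.const (Nat.pair 1 0)
  · exact Primrec.const (Nat.pair 2 0)

theorem ad (hf : UT α f) (hg : UT α g) : UT α fun k M _ v => ad (f k M v) (g k M v) :=
  (func addFunc (s := ![f, g]) (Fin.forall_fin_two.2 ⟨hf, hg⟩)).of_eq fun _ _ _ _ =>
    congrArg _ (funext (Fin.forall_fin_two.2 ⟨rfl, rfl⟩))

theorem mu (hf : UT α f) (hg : UT α g) : UT α fun k M _ v => mu (f k M v) (g k M v) :=
  (func mulFunc (s := ![f, g]) (Fin.forall_fin_two.2 ⟨hf, hg⟩)).of_eq fun _ _ _ _ =>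
    congrArg _ (funext (Fin.forall_fin_two.2 ⟨rfl, rfl⟩))

theorem ng (hf : UT α f) : UT α fun k M _ v => ng (f k M v) :=
  (func negFunc (s := ![f]) (Fin.forall_fin_one.2 hf)).of_eq fun _ _ _ _ =>
    congrArg _ (funext (Fin.forall_fin_one.2 rfl))

theorem ze : UT α fun _ M _ _ => ze M :=
  (func zeroFunc (s := ![]) fun i => i.elim0).of_eq fun _ _ _ _ =>
    congrArg _ (funext fun i => i.elim0)

theorem on : UT α fun _ M _ _ => on M :=
  (func oneFunc (s := ![]) fun i => i.elim0).of_eq fun _ _ _ _ =>
    congrArg _ (funext fun i => i.elim0)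

theorem num (j : ℕ) : UT α fun _ M _ _ => num M j := by
  induction j with
  | zero => exact ze
  | succ j ih => exact ih.ad on

theorem term {m : ℕ} (t : Language.ring.Term (Empty ⊕ Fin m))
    {s : Fin m → ℕ → ∀ (M : Type) [St M], (α → M) → M} (hs : ∀ i, UT α (s i)) :
    UT α fun k M _ v => t.realize (Sum.elim Empty.elim fun i => s i k M v) := by
  induction t with
  | var a =>
    rcases a with a | a
    · exact a.elim
    · exact hs a
  | func F ts ih => exact func F ih

theorem lift (hf : UT α f) (e : α → β) : UT β fun k M _ v => f k M fun a => v (e a) :=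
  fun n e' => hf n fun a => e' (e a)

end UT

/-- numerals as terms -/
def numT (n : ℕ) : ℕ → Language.ring.Term (Empty ⊕ Fin n)
  | 0 => .func ringFunc.zero ![]
  | k + 1 => .func ringFunc.add ![numT n k, (.func ringFunc.one ![])]

theorem realize_numT {n : ℕ} {M : Type} [St M] (v : Empty ⊕ Fin n → M) (k : ℕ) :
    (numT n k).realize v = num M k := by
  induction k with
  | zero => exact congrArg _ (funext fun i => i.elim0)
  | succ k ih =>
    refine congrArg _ (funext (Fin.forall_fin_two.2 ⟨ih, ?_⟩))
    exact congrArg _ (funext fun i => i.elim0)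

theorem primrec_numT (n : ℕ) : Primrec fun k => termCode (numT n k) := by
  have : Primrec fun k : ℕ => (Nat.rec (Nat.pair 1 0)
      (fun _ ih => Nat.pair 4 (Nat.pair ih (Nat.pair 2 0))) k : ℕ) :=
    Primrec.nat_rec₁ _ (Primrec₂.natPair.comp (Primrec.const 4)
      (Primrec₂.natPair.comp Primrec.snd (Primrec.const _))).to₂
  refine this.of_eq fun k => ?_
  induction k with
  | zero => rfl
  | succ k ih => simp only [ih]; rfl

theorem UT.numk : UT α fun k M _ _ => H22.num M k := fun n _ =>
  ⟨numT n, primrec_numT n, fun k _ _ _ => realize_numT _ k⟩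

namespace UD

variable {P Q : ℕ → ∀ (M : Type) [St M], (α → M) → Prop}

theorem of_iff (hP : UD α P) (h : ∀ (k : ℕ) (M : Type) [St M] v, P k M v ↔ Q k M v) : UD α Q :=
  fun n e => (hP n e).imp fun _ ht => ⟨ht.1, fun k M _ v => (ht.2 k M v).trans (h k M _)⟩

theorem bot : UD α fun _ _ _ _ => False := fun _ _ =>
  ⟨fun _ => .falsum, Primrec.const _, fun _ _ _ _ => Iff.rfl⟩

theorem eq {f g : ℕ → ∀ (M : Type) [St M], (α → M) → M} (hf : UT α f) (hg : UT α g) :
    UD α fun k M _ v => f k M v = g k M v := by
  intro n e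
  obtain ⟨s, s1, s2⟩ := hf n e
  obtain ⟨t, t1, t2⟩ := hg n e
  exact ⟨fun k => .equal (s k) (t k), pr2 1 s1 t1, fun k M _ v => by
    rw [BoundedFormula.Realize, s2, t2]⟩

theorem imp (hP : UD α P) (hQ : UD α Q) : UD α fun k M _ v => P k M v → Q k M v := by
  intro n e
  obtain ⟨s, s1, s2⟩ := hP n e
  obtain ⟨t, t1, t2⟩ := hQ n e
  exact ⟨fun k => .imp (s k) (t k), pr2 2 s1 t1, fun k M _ v => by
    rw [BoundedFormula.realize_imp, s2, t2]⟩

theorem not (hP : UD α P) : UD α fun k M _ v => ¬ P k M v := hP.imp bot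

theorem and (hP : UD α P) (hQ : UD α Q) : UD α fun k M _ v => P k M v ∧ Q k M v :=
  (hP.imp hQ.not).not.of_iff fun _ _ _ _ => by tauto

theorem or (hP : UD α P) (hQ : UD α Q) : UD α fun k M _ v => P k M v ∨ Q k M v :=
  (hP.not.imp hQ).of_iff fun _ _ _ _ => by tauto

theorem all {P : ℕ → ∀ (M : Type) [St M], (α → M) → M → Prop}
    (h : UD (Option α) fun k M _ v => P k M (fun a => v (some a)) (v none)) :
    UD α fun k M _ v => ∀ y, P k M v y := by
  intro n e
  obtain ⟨s, s1, s2⟩ := h (n + 1) fun o => o.elim (Fin.last n) fun a => (e a).castSucc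
  refine ⟨fun k => .all (s k), Primrec₂.natPair.comp (Primrec.const 3) s1, fun k M _ v => ?_⟩
  simp only [BoundedFormula.realize_all, s2, Option.elim, Fin.snoc_castSucc, Fin.snoc_last]

theorem ex {P : ℕ → ∀ (M : Type) [St M], (α → M) → M → Prop}
    (h : UD (Option α) fun k M _ v => P k M (fun a => v (some a)) (v none)) :
    UD α fun k M _ v => ∃ y, P k M v y :=
  (all (P := fun k M _ v y => ¬ P k M v y) h.not).not.of_iff fun _ _ _ _ => by simp

theorem lift (hP : UD α P) (e : α → β) : UD β fun k M _ v => P k M fun a => v (e a) :=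
  fun n e' => hP n fun a => e' (e a)

theorem fml {m : ℕ} (θ : Language.ring.BoundedFormula Empty m) : ∀ {α : Type}
    {s : Fin m → ℕ → ∀ (M : Type) [St M], (α → M) → M}, (∀ i, UT α (s i)) →
    UD α fun k M _ v => θ.Realize Empty.elim fun i => s i k M v := by
  induction θ with
  | falsum => exact fun _ => bot
  | equal t u => exact fun hs => eq (UT.term t hs) (UT.term u hs)
  | rel R _ => exact R.elim
  | imp φ ψ ih1 ih2 => exact fun hs => (ih1 hs).imp (ih2 hs)
  | @all m φ ih =>
    intro α s hs
    apply all (P := fun k M _ v y => φ.Realize Empty.elim (Fin.snoc (fun i => s i k M v) y))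
    refine (ih (α := Option α) (s := fun i k M _ v =>
      (Fin.snoc (fun i => s i k M fun a => v (some a)) (v none) : Fin (m + 1) → M) i) fun i => ?_)
    refine Fin.lastCases ?_ (fun j => ?_) i
    · simp only [Fin.snoc_last]
      exact UT.var none
    · simp only [Fin.snoc_castSucc]
      exact (hs j).lift some

theorem lt (a : α) : UD α fun k M _ v => ∃ i < k, v a = num M i := by
  intro n e
  let φ : ℕ → Language.ring.BoundedFormula Empty n := fun k => Nat.rec .falsum
    (fun i ih => .imp (.imp ih .falsum) (.equal (.var (Sum.inr (e a))) (numT n i))) k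
  refine ⟨φ, ?_, fun k M _ v => ?_⟩
  · have : Primrec fun k : ℕ => (Nat.rec (Nat.pair 0 0)
        (fun i ih => Nat.pair 2 (Nat.pair (Nat.pair 2 (Nat.pair ih (Nat.pair 0 0)))
          (Nat.pair 1 (Nat.pair (Nat.pair 0 (e a).val) (termCode (numT n i)))))) k : ℕ) :=
      Primrec.nat_rec₁ _ (Primrec₂.natPair.comp (Primrec.const 2) (Primrec₂.natPair.comp
        (Primrec₂.natPair.comp (Primrec.const 2)
          (Primrec₂.natPair.comp Primrec.snd (Primrec.const _)))
        (Primrec₂.natPair.comp (Primrec.const 1) (Primrec₂.natPair.comp (Primrec.const _)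
          ((primrec_numT n).comp Primrec.fst))))).to₂
    refine this.of_eq fun k => ?_
    induction k with
    | zero => rfl
    | succ k ih => simp only [ih]; rfl
  · induction k with
    | zero => simp [φ, BoundedFormula.Realize]
    | succ k ih =>
      change (((φ k).Realize Empty.elim v → False) → v (e a) = (numT n k).realize _) ↔ _
      rw [ih, realize_numT]
      simp only [Nat.exists_lt_succ_right]
      exact or_iff_not_imp_left.symm

theorem close [Finite α] (hP : UD α P) : ∃ σ : ℕ → Language.ring.Sentence,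
    (Primrec fun k => code (σ k)) ∧ ∀ (k : ℕ) (M : Type) [St M], M ⊨ σ k ↔ ∀ v, P k M v := by
  obtain ⟨n, ⟨e⟩⟩ := Finite.exists_equiv_fin α
  obtain ⟨φ, h1, h2⟩ := hP n e
  refine ⟨fun k => (φ k).alls, ?_, fun k M _ => ?_⟩
  · clear h2 e
    induction n with
    | zero => exact h1
    | succ n ih => exact ih (fun k => (φ k).all) (Primrec₂.natPair.comp (Primrec.const 3) h1)
  · rw [Sentence.Realize, BoundedFormula.realize_alls,
      Subsingleton.elim (default : Empty → M) Empty.elim]
    simp only [h2]
    exact ⟨fun h v => by simpa using h fun i => v (e.symm i), fun h v => h _⟩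

end UD

end Pool.Agent.MP_b4c6b8_lc.H22
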